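import Pool.Agent.CPY.B.Fd

/-! # Canonical names and ranks in the ground model

(problem MP_ba5606_gt, project CPY, block (B2); no sorry in this file) -/

universe v

namespace CPY

open STP ZU

section

variable {N : Type v} [ZM N]

/-- the canonical name of `x` in the model -/
noncomputable def chkM (o x : N) : N := Rec (fun x f => img x fun y => op (ap f y) o) x

@[simp] theorem df_chkM {o x : (ℕ → N) → N} (ho : DF o) (hx : DF x) :
    DF fun v => chkM (o v) (x v) := by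
  unfold chkM
  refine df_rec (G := fun x f v => img x fun y => op (ap f y) (o v)) ?_ hx
  refine df_img (F := fun y v => op (ap (v 1) y) (o fun i => v (i + 2))) (df_var 0) ?_
  exact df_op (df_ap (df_var 2) (df_var 0)) (df_ren (fun i => i + 3) ho)

theorem mem_chkM {o x z : N} : z ∈ chkM o x ↔ ∃ y, y ∈ x ∧ z = op (chkM o y) o := by
  have hc : DF fun v : ℕ → N => chkM o (v 0) := df_chkM (df_const o) (df_var 0)
  have h : chkM o x = img x fun y => op (ap (lam x (chkM o)) y) o :=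
    rec_eq (G := fun x f => img x fun y => op (ap f y) o) (by simp (maxDischargeDepth := 99)) x
  rw [h, mem_img (by simp (maxDischargeDepth := 99))]
  refine exists_congr fun y => and_congr_right fun hy => ?_
  rw [ap_lam hc hy]

/-- the rank of `x` in the model -/
noncomputable def rkM (x : N) : N := Rec (fun x f => bU x fun y => cup (ap f y) (sg (ap f y))) x

@[simp] theorem df_rkM {x : (ℕ → N) → N} (hx : DF x) : DF fun v => rkM (x v) :=
  df1 (F := rkM) (by unfold rkM; simp (maxDischargeDepth := 99)) hx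

theorem mem_rkM {x z : N} : z ∈ rkM x ↔ ∃ y, y ∈ x ∧ (z ∈ rkM y ∨ z = rkM y) := by
  have hc : DF fun v : ℕ → N => rkM (v 0) := df_rkM (df_var 0)
  have h : rkM x = bU x fun y => cup (ap (lam x rkM) y) (sg (ap (lam x rkM) y)) :=
    rec_eq (G := fun x f => bU x fun y => cup (ap f y) (sg (ap f y)))
      (by simp (maxDischargeDepth := 99)) x
  rw [h, mem_bU (by simp (maxDischargeDepth := 99))]
  refine exists_congr fun y => and_congr_right fun hy => ?_
  rw [ap_lam hc hy, mem_cup, mem_sg]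

end

variable {M : Set ZFSet.{0}} [tM : TM M] {Q : Po}

theorem chkM_val {o : M} (h : o.1 = Q.one) (x : M) : (chkM o x).1 = chk Q x.1 := by
  refine ind (P := fun x : M => (chkM o x).1 = chk Q x.1) ?_ x
  intro x ih
  refine val_ext (fun z hz => ?_) fun z hz => ?_
  · obtain ⟨y, hy, rfl⟩ := mem_chkM.1 hz
    rw [mop_val, ih y hy, h]
    exact mem_chk.2 ⟨y.1, hy, rfl⟩
  · obtain ⟨y, hy, rfl⟩ := mem_chk.1 hz
    obtain ⟨y', rfl, hy'⟩ := mv_ex hy
    refine ⟨op (chkM o y') o, ?_, mem_chkM.2 ⟨y', hy', rfl⟩⟩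
    rw [mop_val, ih y' hy', h]

/-- the greatest condition as an element of `M` -/
def IsPo.om (h : IsPo M Q) : M := ⟨Q.one, h.in_M h.one_mem⟩

theorem IsPo.om_val (h : IsPo M Q) : h.om.1 = Q.one := rfl

theorem chk_mem (h : IsPo M Q) {x : ZFSet.{0}} (hx : x ∈ M) : chk Q x ∈ M := by
  rw [← chkM_val (o := h.om) rfl ⟨x, hx⟩]
  exact (chkM h.om ⟨x, hx⟩).2

theorem gnm_mem (h : IsPo M Q) : gnm Q ∈ M := by
  have hD : DF fun v : ℕ → M => op (chkM h.om (v 0)) (v 0) :=
    df_op (df_chkM (df_const _) (df_var 0)) (df_var 0)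
  have : (img h.Pm fun p => op (chkM h.om p) p).1 = gnm Q := by
    refine val_ext (fun z hz => ?_) fun z hz => ?_
    · obtain ⟨p, hp, rfl⟩ := (mem_img (F := fun p => op (chkM h.om p) p) hD).1 hz
      rw [mop_val, chkM_val (o := h.om) rfl]
      exact mem_gnm.2 ⟨p.1, hp, rfl⟩
    · obtain ⟨p, hp, rfl⟩ := mem_gnm.1 hz
      refine ⟨op (chkM h.om ⟨p, h.in_M hp⟩) ⟨p, h.in_M hp⟩, ?_,
        (mem_img (F := fun p => op (chkM h.om p) p) hD).2 ⟨⟨p, h.in_M hp⟩, hp, rfl⟩⟩
      rw [mop_val, chkM_val (o := h.om) rfl]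
  rw [← this]
  exact (img h.Pm fun p => op (chkM h.om p) p).2

theorem rkM_val (x : M) : (rkM x).1 = x.1.rank.toZFSet := by
  refine ind (P := fun x : M => (rkM x).1 = x.1.rank.toZFSet) ?_ x
  intro x ih
  refine val_ext (fun z hz => ?_) fun z hz => ?_
  · obtain ⟨y, hy, hz⟩ := mem_rkM.1 hz
    have h1 : y.1.rank < x.1.rank := ZFSet.rank_lt_of_mem hy
    rcases hz with hz | rfl
    · have h2 : z.1 ∈ y.1.rank.toZFSet := by
        rw [← ih y hy]
        exact hz
      exact Ordinal.toZFSet_monotone h1.le h2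
    · rw [ih y hy]
      exact Ordinal.toZFSet_mem_toZFSet_iff.2 h1
  · obtain ⟨a, ha, rfl⟩ := Ordinal.mem_toZFSet_iff.1 hz
    obtain ⟨y, hy, hay⟩ := ZFSet.lt_rank_iff.1 ha
    obtain ⟨y', rfl, hy'⟩ := mv_ex hy
    rcases hay.lt_or_eq with h1 | h1
    · have h2 : a.toZFSet ∈ (rkM y').1 := by
        rw [ih y' hy']
        exact Ordinal.toZFSet_mem_toZFSet_iff.2 h1
      obtain ⟨z', h3, h4⟩ := mv_ex h2
      exact ⟨z', h3, mem_rkM.2 ⟨y', hy', Or.inl h4⟩⟩
    · refine ⟨rkM y', ?_, mem_rkM.2 ⟨y', hy', Or.inr rfl⟩⟩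
      rw [ih y' hy', h1]

theorem rank_mem {x : ZFSet.{0}} (hx : x ∈ M) : x.rank.toZFSet ∈ M := by
  rw [← rkM_val ⟨x, hx⟩]
  exact (rkM (⟨x, hx⟩ : M)).2

end CPY
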