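import Pool.Agent.ZU.Rec

/-! # Collection in well-founded models of ZF

(problem MP_ba5606_gt, project CPY, block (B2); no sorry in this file)

`Vr x` is the set of all sets of rank less than the rank of `x`. For a definable relation `R` there is
for every set `A` a set `K` such that for every `w ∈ A` with `∃ z, R w z` there is `z ∈ K` with
`R w z`. -/

universe v

namespace CPY

open STP ZU

variable {N : Type v} [ZM N]

/-- `Vr x` is the set of all sets of rank less than the rank of `x` -/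
noncomputable def Vr (x : N) : N := Rec (fun x f => bU x fun y => pw (ap f y)) x

@[simp] theorem df_Vr {x : (ℕ → N) → N} (hx : DF x) : DF fun v => Vr (x v) :=
  df1 (F := Vr) (by unfold Vr; simp (maxDischargeDepth := 99)) hx

theorem mem_Vr {x u : N} : u ∈ Vr x ↔ ∃ y, y ∈ x ∧ u ⊆ Vr y := by
  have h : Vr x = bU x fun y => pw (ap (lam x Vr) y) :=
    rec_eq (G := fun x f => bU x fun y => pw (ap f y)) (by simp (maxDischargeDepth := 99)) x
  rw [h, mem_bU (by simp (maxDischargeDepth := 99))]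
  refine exists_congr fun y => and_congr_right fun hy => ?_
  rw [ap_lam (df_Vr (df_var 0)) hy, mem_pw]

theorem sub_Vr (x : N) : x ⊆ Vr x := by
  refine ind (P := fun x : N => x ⊆ Vr x) ?_ x
  intro x ih y hy
  exact mem_Vr.2 ⟨y, hy, ih y hy⟩

/-- the rank (an ordinal outside the model) -/
noncomputable def rkN (x : N) : Ordinal.{v} := ((ZM.wf (N := N)).apply x).rank

theorem rkN_lt {x y : N} (h : x ∈ y) : rkN x < rkN y :=
  Acc.rank_lt_of_rel ((ZM.wf (N := N)).apply y) h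

theorem lt_rkN {x y : N} (h : rkN y < rkN x) : ∃ z, z ∈ x ∧ rkN y ≤ rkN z := by
  by_contra hc
  push Not at hc
  have : rkN x ≤ rkN y := by
    unfold rkN
    rw [((ZM.wf (N := N)).apply x).rank_eq]
    refine Ordinal.iSup_le fun z => ?_
    exact Order.succ_le_of_lt (hc z.1 z.2)
  exact absurd h (not_lt.2 this)

theorem Vr_mono {x y : N} (h : rkN x ≤ rkN y) : Vr x ⊆ Vr y := by
  revert y h
  refine ind (P := fun x : N => ∀ {y : N}, rkN x ≤ rkN y → Vr x ⊆ Vr y) ?_ x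
  intro x ih y hxy u hu
  obtain ⟨z, hz, hu⟩ := mem_Vr.1 hu
  obtain ⟨z', hz', h1⟩ := lt_rkN ((rkN_lt hz).trans_le hxy)
  exact mem_Vr.2 ⟨z', hz', sub_trans hu (ih z hz h1)⟩

/-- the set of all elements of least rank with `P` -/
noncomputable def lst (P : N → Prop) : N :=
  the fun s => ∀ z, z ∈ s ↔ P z ∧ ∀ z', P z' → Vr z ⊆ Vr z'

@[simp] theorem df_lst {R : N → (ℕ → N) → Prop} (h : Dfn fun v => R (v 0) fun i => v (i + 1)) :
    DF fun v => lst fun z => R z v := by
  refine df_the (R := fun s v => ∀ z, z ∈ s ↔ R z v ∧ ∀ z', R z' v → Vr z ⊆ Vr z') (dfn_all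
    (dfn_iff (dfn_mem (df_var 0) (df_var 1)) (dfn_and ?_ (dfn_all (dfn_imp ?_ (dfn_sub
      (df_Vr (df_var 1)) (df_Vr (df_var 0))))))))
  · exact (dfn_ren (fun i => match i with | 0 => 0 | n + 1 => n + 2) h).congr fun v => Iff.rfl
  · exact (dfn_ren (fun i => match i with | 0 => 0 | n + 1 => n + 3) h).congr fun v => Iff.rfl

theorem mem_lst {P : N → Prop} (hP : Dfn fun v => P (v 0)) {z : N} :
    z ∈ lst P ↔ P z ∧ ∀ z', P z' → Vr z ⊆ Vr z' := by
  have hD : Dfn fun v : ℕ → N => P (v 0) ∧ ∀ z', P z' → Vr (v 0) ⊆ Vr z' := by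
    refine dfn_and hP (dfn_all (R := fun z' v => P z' → Vr (v 0) ⊆ Vr z') (dfn_imp ?_ ?_))
    · exact (dfn_ren (fun _ => 0) hP).congr fun v => Iff.rfl
    · exact dfn_sub (df_Vr (df_var 1)) (df_Vr (df_var 0))
  -- such a set exists
  have hex : ∃ s : N, ∀ z, z ∈ s ↔ P z ∧ ∀ z', P z' → Vr z ⊆ Vr z' := by
    by_cases hc : ∃ z, P z
    · obtain ⟨z0, h0⟩ := hc
      refine ⟨sep (pw (Vr z0)) fun z => P z ∧ ∀ z', P z' → Vr z ⊆ Vr z', fun z => ?_⟩
      rw [ZU.mem_sep hD, mem_pw]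
      refine and_iff_right_of_imp fun h => ?_
      exact sub_trans (sub_Vr z) (h.2 z0 h0)
    · refine ⟨∅, fun z => ?_⟩
      refine iff_of_false (not_mem_em z) fun h => hc ⟨z, h.1⟩
  obtain ⟨s, hs⟩ := hex
  have : lst P = s := the_eq hs fun w hw => ext fun u => (hw u).trans (hs u).symm
  rw [this]
  exact hs z

theorem lst_ne {P : N → Prop} (hP : Dfn fun v => P (v 0)) (h : ∃ z, P z) : ∃ z, z ∈ lst P := by
  obtain ⟨z, hz, hm⟩ := (InvImage.wf rkN (Ordinal.lt_wf)).has_min {z : N | P z} h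
  refine ⟨z, (mem_lst hP).2 ⟨hz, fun z' hz' => Vr_mono ?_⟩⟩
  exact not_lt.1 (hm z' hz')

/-- **Collection** -/
theorem coll {R : N → N → Prop} (hR : Dfn fun v => R (v 0) (v 1)) (A : N) :
    ∃ K : N, ∀ w, w ∈ A → (∃ z, R w z) → ∃ z, z ∈ K ∧ R w z := by
  have h1 : DF fun v : ℕ → N => lst (R (v 0)) := by
    refine df_lst (R := fun z v => R (v 0) z) ?_
    exact (dfn_ren (fun i => match i with | 0 => 1 | n + 1 => 0) hR).congr fun v => Iff.rfl
  refine ⟨bU A fun w => lst (R w), fun w hw hz => ?_⟩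
  have hw' : Dfn fun v : ℕ → N => R w (v 0) :=
    dfn2 hR (df_const w) (df_var 0)
  obtain ⟨z, h2⟩ := lst_ne hw' hz
  refine ⟨z, (mem_bU h1).2 ⟨w, hw, h2⟩, ((mem_lst hw').1 h2).1⟩

end CPY
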