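import Pool.Agent.CPY.Lang

/-! # Forcing over a countable transitive model: definitions

(problem MP_ba5606_gt, project CPY, block (B); no sorry in this file)

`M : Set ZFSet.{0}` is a transitive model. A partial order of `M` is a triple `Q : Po` of elements of
`M` (conditions, order as a set of ordered pairs, greatest condition). ALL elements of `M` are names;
`dm y x` says that `(y, p) ∈ x` for some `p`. For a filter `G : Set ZFSet.{0}` the value is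
`val G x = {val G y : (y, p) ∈ x, p ∈ G}`, and `Ext M G = M[G]` is the set of all values.
`fe Q x y p`: the condition `p` forces `x = y`; `fm Q x y p`: `p` forces `x ∈ y`; `ff M Q φ v p`: `p`
forces `φ(v 0, v 1, ...)`. These relations are meant for `p ∈ Q.P`. -/

namespace CPY

open STP

/-- A partial order as a triple of sets: the set `P` of conditions, the set `L` of all ordered pairs
`(q, p)` with `q ≤ p`, the greatest condition `one`. -/
structure Po where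
  P : ZFSet.{0}
  L : ZFSet.{0}
  one : ZFSet.{0}

/-- `q ≤ p` -/
def Po.le (Q : Po) (q p : ZFSet.{0}) : Prop := ZFSet.pair q p ∈ Q.L

/-- `Q` is a preorder with greatest element `one` and an element of `M`. -/
structure IsPo (M : Set ZFSet.{0}) (Q : Po) : Prop where
  P_mem : Q.P ∈ M
  L_mem : Q.L ∈ M
  one_mem : Q.one ∈ Q.P
  sub : ∀ z ∈ Q.L, ∃ q ∈ Q.P, ∃ p ∈ Q.P, z = ZFSet.pair q p
  refl : ∀ p ∈ Q.P, Q.le p p
  trans : ∀ p q r, Q.le p q → Q.le q r → Q.le p r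
  le_one : ∀ p ∈ Q.P, Q.le p Q.one

/-- `y` is a member of the domain of `x`: `(y, p) ∈ x` for some `p` -/
def dm (y x : ZFSet.{0}) : Prop := ∃ p, ZFSet.pair y p ∈ x

theorem mem_trans_pair_left {x a b : ZFSet.{0}} (h : ZFSet.pair a b ∈ x) :
    ∃ s, a ∈ s ∧ s ∈ ZFSet.pair a b ∧ ZFSet.pair a b ∈ x := by
  refine ⟨{a}, by simp, ?_, h⟩
  simp [ZFSet.pair]

theorem dm_rank {y x : ZFSet.{0}} (h : dm y x) : y.rank < x.rank := by
  obtain ⟨p, hp⟩ := h
  obtain ⟨s, h1, h2, h3⟩ := mem_trans_pair_left hp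
  exact (ZFSet.rank_lt_of_mem h1).trans ((ZFSet.rank_lt_of_mem h2).trans (ZFSet.rank_lt_of_mem h3))

theorem dm_wf : WellFounded dm :=
  Subrelation.wf (fun h => dm_rank h) (InvImage.wf ZFSet.rank Ordinal.lt_wf)

instance small_dm (x : ZFSet.{0}) (R : ZFSet.{0} → Prop) :
    Small.{0} {y : ZFSet.{0} // dm y x ∧ R y} := by
  have hi : Function.Injective
      (fun s : {y : ZFSet.{0} // dm y x ∧ R y} =>
        (⟨s.1, by
          obtain ⟨p, hp⟩ := s.2.1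
          obtain ⟨t, h1, h2, h3⟩ := mem_trans_pair_left hp
          exact ZFSet.mem_sUnion.2 ⟨t, ZFSet.mem_sUnion.2 ⟨_, h3, h2⟩, h1⟩⟩ :
          {y : ZFSet.{0} // y ∈ ZFSet.sUnion (ZFSet.sUnion x)})) := by
    intro a b h
    have h' := congrArg Subtype.val h
    exact Subtype.ext h'
  exact small_of_injective hi

/-- the value of the name `x` for the filter `G` -/
noncomputable def val (G : Set ZFSet.{0}) : ZFSet.{0} → ZFSet.{0} :=
  dm_wf.fix fun x IH => ZFSet.range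
    fun s : {y : ZFSet.{0} // dm y x ∧ ∃ p ∈ G, ZFSet.pair y p ∈ x} => IH s.1 s.2.1

theorem val_eq (G : Set ZFSet.{0}) (x : ZFSet.{0}) : val G x = ZFSet.range
    fun s : {y : ZFSet.{0} // dm y x ∧ ∃ p ∈ G, ZFSet.pair y p ∈ x} => val G s.1 := by
  unfold val
  rw [WellFounded.fix_eq]

/-- The elements of the value of a name. -/
theorem mem_val {G : Set ZFSet.{0}} {x z : ZFSet.{0}} :
    z ∈ val G x ↔ ∃ y p, ZFSet.pair y p ∈ x ∧ p ∈ G ∧ z = val G y := by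
  rw [val_eq, ZFSet.mem_range]
  constructor
  · rintro ⟨⟨y, h1, p, hp, h2⟩, rfl⟩
    exact ⟨y, p, h2, hp, rfl⟩
  · rintro ⟨y, p, h1, h2, rfl⟩
    exact ⟨⟨y, ⟨p, h1⟩, p, h2, h1⟩, rfl⟩

/-- the generic extension `M[G]` -/
noncomputable def Ext (M : Set ZFSet.{0}) (G : Set ZFSet.{0}) : Set ZFSet.{0} :=
  {z | ∃ x ∈ M, val G x = z}

/-- `G` is an `M`-generic filter of `Q`. -/
structure Gen (M : Set ZFSet.{0}) (Q : Po) (G : Set ZFSet.{0}) : Prop where
  sub : ∀ p ∈ G, p ∈ Q.P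
  one : Q.one ∈ G
  up : ∀ p ∈ G, ∀ q, Q.le p q → q ∈ G
  dir : ∀ p ∈ G, ∀ q ∈ G, ∃ r ∈ G, Q.le r p ∧ Q.le r q
  gen : ∀ D ∈ M, (∀ p ∈ Q.P, ∃ q ∈ D, Q.le q p) → ∃ p ∈ G, p ∈ D

/-- the canonical name of the set `x`: `{(chk y, one) : y ∈ x}` -/
noncomputable def chk (Q : Po) : ZFSet.{0} → ZFSet.{0} :=
  ZFSet.mem_wf.fix fun x IH => ZFSet.range
    fun s : {y : ZFSet.{0} // y ∈ x} => ZFSet.pair (IH s.1 s.2) Q.one

theorem chk_eq (Q : Po) (x : ZFSet.{0}) : chk Q x = ZFSet.range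
    fun s : {y : ZFSet.{0} // y ∈ x} => ZFSet.pair (chk Q s.1) Q.one := by
  unfold chk
  rw [WellFounded.fix_eq]

theorem mem_chk {Q : Po} {x z : ZFSet.{0}} :
    z ∈ chk Q x ↔ ∃ y ∈ x, z = ZFSet.pair (chk Q y) Q.one := by
  rw [chk_eq, ZFSet.mem_range]
  constructor
  · rintro ⟨⟨y, h⟩, rfl⟩
    exact ⟨y, h, rfl⟩
  · rintro ⟨y, h, rfl⟩
    exact ⟨⟨y, h⟩, rfl⟩

/-- the canonical name of the generic filter: `{(chk p, p) : p ∈ P}` -/
noncomputable def gnm (Q : Po) : ZFSet.{0} := ZFSet.range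
    fun s : {p : ZFSet.{0} // p ∈ Q.P} => ZFSet.pair (chk Q s.1) s.1

theorem mem_gnm {Q : Po} {z : ZFSet.{0}} : z ∈ gnm Q ↔ ∃ p ∈ Q.P, z = ZFSet.pair (chk Q p) p := by
  rw [gnm, ZFSet.mem_range]
  constructor
  · rintro ⟨⟨y, h⟩, rfl⟩
    exact ⟨y, h, rfl⟩
  · rintro ⟨y, h, rfl⟩
    exact ⟨⟨y, h⟩, rfl⟩

/-- the generic filter as a set -/
noncomputable def gset (Q : Po) (G : Set ZFSet.{0}) : ZFSet.{0} := Q.P.sep fun p => p ∈ G

/-- The condition `p` forces `x = y` (recursion on `x`, for all `y`, `p` simultaneously). -/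
noncomputable def fe (Q : Po) : ZFSet.{0} → ZFSet.{0} → ZFSet.{0} → Prop :=
  dm_wf.fix fun x IH y p =>
    (∀ z r (h : ZFSet.pair z r ∈ x) q, Q.le q p → Q.le q r →
      ∃ q', Q.le q' q ∧ ∃ w s, ZFSet.pair w s ∈ y ∧ Q.le q' s ∧ IH z ⟨r, h⟩ w q') ∧
    (∀ w s, ZFSet.pair w s ∈ y → ∀ q, Q.le q p → Q.le q s →
      ∃ q', Q.le q' q ∧ ∃ z r, ∃ h : ZFSet.pair z r ∈ x, Q.le q' r ∧ IH z ⟨r, h⟩ w q')

theorem fe_iff {Q : Po} {x y p : ZFSet.{0}} : fe Q x y p ↔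
    (∀ z r, ZFSet.pair z r ∈ x → ∀ q, Q.le q p → Q.le q r →
      ∃ q', Q.le q' q ∧ ∃ w s, ZFSet.pair w s ∈ y ∧ Q.le q' s ∧ fe Q z w q') ∧
    (∀ w s, ZFSet.pair w s ∈ y → ∀ q, Q.le q p → Q.le q s →
      ∃ q', Q.le q' q ∧ ∃ z r, ZFSet.pair z r ∈ x ∧ Q.le q' r ∧ fe Q z w q') := by
  conv_lhs => unfold fe
  rw [WellFounded.fix_eq]
  simp only [exists_prop]
  rfl

/-- The condition `p` forces `x ∈ y`. -/
def fm (Q : Po) (x y p : ZFSet.{0}) : Prop :=
  ∀ q, Q.le q p → ∃ q', Q.le q' q ∧ ∃ w s, ZFSet.pair w s ∈ y ∧ Q.le q' s ∧ fe Q x w q'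

/-- The condition `p` forces the formula `φ` for the names `v 0, v 1, ...` (quantifiers range over the
names in `M`). -/
def ff (M : Set ZFSet.{0}) (Q : Po) : Fml → (ℕ → M) → ZFSet.{0} → Prop
  | .mem i j, v, p => fm Q (v i).1 (v j).1 p
  | .eq i j, v, p => fe Q (v i).1 (v j).1 p
  | .bot, _, _ => False
  | .imp φ ψ, v, p => ∀ q, Q.le q p → ff M Q φ v q → ff M Q ψ v q
  | .all φ, v, p => ∀ x : M, ff M Q φ (cns x v) p

/-- the values of an assignment of names -/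
noncomputable def vals {M : Set ZFSet.{0}} (G : Set ZFSet.{0}) (v : ℕ → M) : ℕ → Ext M G :=
  fun i => ⟨val G (v i).1, (v i).1, (v i).2, rfl⟩

theorem vals_cns {M : Set ZFSet.{0}} (G : Set ZFSet.{0}) (x : M) (v : ℕ → M) :
    vals G (cns x v) = cns ⟨val G x.1, x.1, x.2, rfl⟩ (vals G v) := by
  funext i
  cases i <;> rfl

end CPY
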