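import Pool.Agent.CPY.B.Tr

/-! # Forcing over a countable transitive model: ordinals of `M[G]`, `M ⊆ M[G]`, `G ∈ M[G]`

(problem MP_ba5606_gt, project CPY, block (B)) -/

namespace CPY

open STP

variable {M : Set ZFSet.{0}} {Q : Po} {G : Set ZFSet.{0}}

/-- Every ordinal of `M[G]` is in `M` (if `M` is closed under the rank function). -/
theorem ord_ext (hM : ∀ x ∈ M, ∀ y ∈ x, y ∈ M) (hr : ∀ x ∈ M, x.rank.toZFSet ∈ M)
    {o : ZFSet.{0}} (ho : o ∈ Ext M G) (h : o.IsOrdinal) : o ∈ M := by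
  obtain ⟨x, hx, rfl⟩ := ho
  have h1 := rank_val G x
  have h2 : (val G x).rank.toZFSet = val G x := h.toZFSet_rank_eq
  rcases h1.lt_or_eq with h3 | h3
  · have h4 : (val G x).rank.toZFSet ∈ x.rank.toZFSet := Ordinal.toZFSet_mem_toZFSet_iff.2 h3
    rw [h2] at h4
    exact hM _ (hr x hx) _ h4
  · rw [← h2, h3]
    exact hr x hx

/-- `M ⊆ M[G]` (if `M` is closed under canonical names). -/
theorem sub_ext (hG : Gen M Q G) (hck : ∀ x ∈ M, chk Q x ∈ M) : M ⊆ Ext M G :=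
  fun x hx => ⟨chk Q x, hck x hx, val_chk hG.one x⟩

/-- `G ∈ M[G]` -/
theorem gset_ext (hG : Gen M Q G) (hg : gnm Q ∈ M) : gset Q G ∈ Ext M G :=
  ⟨gnm Q, hg, val_gnm hG⟩

end CPY
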