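import Pool.Agent.CPY.B.Nice
import Pool.Agent.CPY.B.Ord

/-! # Forcing over a countable transitive model: the first uncountable ordinal is preserved

(problem MP_ba5606_gt, project CPY, block (B3)) -/

namespace CPY

open STP ZU

variable {M M' : Set ZFSet.{0}} [TM M] [TM M']

/-- ordinals of a transitive model are absolute -/
theorem ord_incl (hs : M ⊆ M') {θ : M} (h : ZU.Ord θ) : ZU.Ord (Set.inclusion hs θ) :=
  ⟨(emb_incl hs).trs.2 h.1, fun y hy => by
    obtain ⟨y0, hy0, rfl⟩ := (emb_incl hs).mem_j.1 hy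
    exact (emb_incl hs).trs.2 (h.2 y0 hy0)⟩

/-- countability is upwards absolute -/
theorem ctb_incl (hs : M ⊆ M') {x : M} (h : Ctb x) : Ctb (Set.inclusion hs x) := by
  obtain ⟨f, hf, h1⟩ := h
  refine ⟨Set.inclusion hs f, ?_, ?_⟩
  · have := (emb_incl hs).isF.2 hf
    rwa [(emb_incl hs).om] at this
  · rw [← (emb_incl hs).rg]
    exact (emb_incl hs).sub.2 h1

/-- If in `M'` every function from `om` to `θ` is bounded, then `θ` is the first uncountable ordinal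
of `M'`. -/
theorem om1_incl (hs : M ⊆ M') {θ : M} (h : IsOm1 θ)
    (hb : ∀ f : M', IsF f om → ∃ b, b ∈ θ ∧ ∀ n a, op n (Set.inclusion hs a) ∈ f → a ∈ θ → a ∈ b) :
    IsOm1 (Set.inclusion hs θ) := by
  refine ⟨ord_incl hs h.1, fun a ha => ?_, fun A hA hc => ?_⟩
  · obtain ⟨a, ha', rfl⟩ := (emb_incl hs).mem_j.1 ha
    exact ctb_incl hs (h.2.1 a ha')
  · obtain ⟨f, hf, h1⟩ := hc
    obtain ⟨b, hb1, hb2⟩ := hb f hf
    refine ⟨Set.inclusion hs b, ((emb_incl hs).mem_iff _ _).2 hb1, fun z hz => ?_⟩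
    obtain ⟨a, ha, rfl⟩ := (emb_incl hs).mem_j.1 (hA z hz)
    obtain ⟨n, hn, h2⟩ := hf.mem_rg.1 (h1 _ hz)
    exact ((emb_incl hs).mem_iff _ _).2 (hb2 n a (hf.op_mem.2 ⟨hn, h2⟩) ha)

/-- **The countable chain condition preserves the first uncountable ordinal.** -/
theorem om1_ext {Q : Po} {G : Set ZFSet.{0}} (h : IsPo M Q) (hD : DFo M Q) (hW : WO M)
    (hcc : Ccc M Q) (hG : Gen M Q G) [TM (Ext M G)] {θ : M} (hθ : IsOm1 θ) :
    IsOm1 (Set.inclusion (sub_ext hG hD.ck) θ) := by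
  refine om1_incl _ hθ fun f hf => ?_
  obtain ⟨x, hx, hxf⟩ := f.2
  obtain ⟨F, hF, h1⟩ := approx h hD hW hcc ⟨x, hx⟩ om θ
  obtain ⟨b, hb, h2⟩ := hθ.2.2 (bU om F) (fun z hz => by
      obtain ⟨n, hn, hz⟩ := (mem_bU hF).1 hz
      exact (h1 n hn).1 z hz)
    (ctb_bU hW hF ctb_om fun n hn => (h1 n hn).2.1)
  refine ⟨b, hb, fun n a hna ha => ?_⟩
  have hn := (hf.op_mem.1 hna).1
  obtain ⟨k, rfl⟩ := mem_om.1 hn
  refine h2 a ((mem_bU hF).2 ⟨nt k, nt_mem_om k, ?_⟩)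
  refine (h1 (nt k) (nt_mem_om k)).2.2 G hG ?_ a ha ?_
  · intro b c hb hc hb' hc'
    obtain ⟨b, hb1, rfl⟩ := ex_val hb
    obtain ⟨c, hc1, rfl⟩ := ex_val hc
    have key : ∀ d : M, ZFSet.pair (nt k : M).1 d.1 ∈ val G x →
        Set.inclusion (sub_ext hG hD.ck) d = ap f (nt k) := by
      intro d hd
      refine (hf.op_mem.1 ?_).2
      rw [op_mem_val, ← hxf]
      have : (nt k : Ext M G).1 = (nt k : M).1 := by rw [val_nt, val_nt]
      rw [this]
      exact hd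
    have h3 := (key b hb').trans (key c hc').symm
    have h4 := congrArg (fun z : Ext M G => z.1) h3
    exact h4
  · rw [op_mem_val, ← hxf] at hna
    have : (nt k : Ext M G).1 = (nt k : M).1 := by rw [val_nt, val_nt]
    rw [this] at hna
    exact hna

end CPY
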