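import Pool.Agent.CPY.B.Main
import Pool.Agent.CPY.B.Om

/-! # The hypotheses of block (B3) for models `Mod M`

(problem MP_ba5606_gt, project CPY, block (B2); no sorry in this file) -/

namespace CPY

open STP ZU

/-- the definability properties of the forcing relation which are used in block (B3) -/
theorem dfo {M : Set ZFSet.{0}} [tM : TM M] {Q : Po} (h : IsPo M Q) : DFo M Q where
  fd := fd h
  fm := dfn_fm h (df_var 0) (df_var 1) (df_var 2)
  ck _ hx := chk_mem h hx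
  ckd := (df_chkM (df_const h.om) (df_var 0)).congr fun v => Subtype.ext
    (chkM_val (o := h.om) rfl (v 0)).symm

theorem mtr_iff {M : Set ZFSet.{0}} [tM : TM M] {x : M} : ZU.Tr x ↔ x.1.IsTransitive := by
  constructor
  · intro h y hy z hz
    obtain ⟨y', rfl, hy'⟩ := mv_ex hy
    obtain ⟨z', rfl, hz'⟩ := mv_ex hz
    exact h y' hy' z' hz'
  · intro h y hy z hz
    exact h y.1 hy hz

/-- ordinals of a transitive model -/
theorem mord_iff {M : Set ZFSet.{0}} [tM : TM M] {x : M} : ZU.Ord x ↔ x.1.IsOrdinal := by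
  rw [ZFSet.isOrdinal_iff_forall_mem_isTransitive]
  refine and_congr mtr_iff ?_
  constructor
  · intro h y hy
    obtain ⟨y', rfl, hy'⟩ := mv_ex hy
    exact mtr_iff.1 (h y' hy')
  · intro h y hy
    exact mtr_iff.2 (h y.1 hy)

theorem wo_of_woP {M : Set ZFSet.{0}} [tM : TM M] (hW : WoP M) : WO M := by
  intro A
  obtain ⟨o, ho, ho', f, hf, hf1, hf2, hf3⟩ := hW A.1 A.2
  have hfm : IsF (⟨f, hf⟩ : M) ⟨o, ho⟩ := by
    rw [isF_iff]
    refine ⟨fun p hp => ?_, fun x hx => ?_, fun x y z hy hz => ?_⟩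
    · obtain ⟨x, hx, y, hy⟩ := hf1 p.1 hp
      have hp' : ZFSet.pair x y ∈ f := by rw [← hy]; exact hp
      obtain ⟨a, b, rfl, rfl, hab⟩ := mpair_ex (z := (⟨f, hf⟩ : M)) hp'
      refine ⟨a, b, hx, isOP_iff.2 (Subtype.ext ?_)⟩
      rw [hy, mop_val]
    · obtain ⟨y, hy, -⟩ := hf2 x.1 hx
      obtain ⟨a, b, h1, rfl, hab⟩ := mpair_ex (z := (⟨f, hf⟩ : M)) hy
      obtain rfl := Subtype.ext h1
      exact ⟨b, val_iff.2 hab⟩
    · rw [val_iff, mop_mem] at hy hz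
      obtain ⟨a, ha, b, hb⟩ := hf1 _ hy
      rw [ZFSet.pair_inj] at hb
      obtain ⟨rfl, rfl⟩ := hb
      exact Subtype.ext ((hf2 x.1 ha).unique hy hz)
  refine ⟨⟨o, ho⟩, ⟨f, hf⟩, mord_iff.2 ho', hfm, fun y hy => ?_⟩
  obtain ⟨x, hx, hxy⟩ := hf3 y.1 hy
  rw [mem_rg]
  exact ⟨⟨x, tM.tr _ ho _ hx⟩, mop_mem.2 hxy⟩

section

variable {M : Set ZFSet.{0}} {Q : Po} {G : Set ZFSet.{0}}

theorem Mod.woz (hM : Mod M) : @WO M (@instZM M hM.tm) :=
  @wo_of_woP M hM.tm hM.wo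

/-- the countable chain condition preserves the first uncountable ordinal -/
theorem Mod.om1 [TM M] [TM (Ext M G)] (hM : Mod M) (h : IsPo M Q) (hcc : Ccc M Q)
    (hG : Gen M Q G) {θ : M} (hθ : IsOm1 θ) :
    IsOm1 (Set.inclusion (hM.sub_ext h hG) θ) :=
  om1_ext h (dfo h) (wo_of_woP hM.wo) hcc hG hθ

end

end CPY
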