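import Pool.Agent.CPY.B.ExZ

/-! # The generic extension is a model of ZFC

(problem MP_ba5606_gt, project CPY, block (B2); no sorry in this file) -/

namespace CPY

open STP ZU

/-- every element of `W` is the image of an ordinal of `W` under a function of `W` -/
def WoP (W : Set ZFSet.{0}) : Prop :=
  ∀ A ∈ W, ∃ o ∈ W, o.IsOrdinal ∧ ∃ f ∈ W, (∀ z ∈ f, ∃ x ∈ o, ∃ y, z = ZFSet.pair x y) ∧
    (∀ x ∈ o, ∃! y, ZFSet.pair x y ∈ f) ∧ ∀ y ∈ A, ∃ x ∈ o, ZFSet.pair x y ∈ f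

/-- the axiom of choice from well-orderings -/
theorem zfc_of_wo {W : Set ZFSet.{0}} (tW : TM W) (hwo : WoP W) : ZFC (Em W) where
  ext := tW.ax.ext
  pair := tW.ax.pair
  union := tW.ax.union
  power := tW.ax.power
  infinity := tW.ax.infinity
  separation := tW.ax.separation
  replacement := tW.ax.replacement
  found x hx := by
    obtain ⟨y, hy, hm⟩ := (InvImage.wf (fun x : W => x.1) ZFSet.mem_wf).has_min
      {y : W | Em W y x} hx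
    exact ⟨y, hy, fun z hz hzy => hm z hz hzy⟩
  choice x hne hdis := by
    have := tW
    obtain ⟨o, ho, ho', f, hf, hf1, hf2, hf3⟩ := hwo (uni x).1 (uni x).2
    -- `ξ` with value `z`
    let f' : W := ⟨f, hf⟩
    have hD : Dfn fun v : ℕ → W => ∃ y : W, y ∈ x ∧ v 0 ∈ y ∧ ∃ ξ : W, op ξ (v 0) ∈ f' ∧
        ∀ η z' : W, op η z' ∈ f' → z' ∈ y → ¬ η ∈ ξ := by
      simp (maxDischargeDepth := 99) [-Subtype.exists, -Subtype.forall]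
    have hc : ∀ z : W, z ∈ sep (uni x) (fun z => ∃ y : W, y ∈ x ∧ z ∈ y ∧ ∃ ξ : W, op ξ z ∈ f' ∧
        ∀ η z' : W, op η z' ∈ f' → z' ∈ y → ¬ η ∈ ξ) ↔ z ∈ uni x ∧ ∃ y : W, y ∈ x ∧ z ∈ y ∧
        ∃ ξ : W, op ξ z ∈ f' ∧ ∀ η z' : W, op η z' ∈ f' → z' ∈ y → ¬ η ∈ ξ := fun z =>
      ZU.mem_sep (P := fun z : W => ∃ y : W, y ∈ x ∧ z ∈ y ∧ ∃ ξ : W, op ξ z ∈ f' ∧
        ∀ η z' : W, op η z' ∈ f' → z' ∈ y → ¬ η ∈ ξ) hD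
    refine ⟨sep (uni x) (fun z => ∃ y : W, y ∈ x ∧ z ∈ y ∧ ∃ ξ : W, op ξ z ∈ f' ∧
        ∀ η z' : W, op η z' ∈ f' → z' ∈ y → ¬ η ∈ ξ), fun y hy => ?_⟩
    have hdom : ∀ ξ z : W, op ξ z ∈ f' → ξ.1 ∈ o := by
      intro ξ z hz
      obtain ⟨a, ha, b, hb⟩ := hf1 _ (mop_mem.1 hz)
      rw [ZFSet.pair_inj] at hb
      rw [hb.1]
      exact ha
    obtain ⟨z0, hz0⟩ := hne y hy
    obtain ⟨ξ0, hξ0, h0⟩ := hf3 z0.1 (mem_uni.2 ⟨y, hy, hz0⟩ : z0 ∈ uni x)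
    obtain ⟨ξ, ⟨z, hz, h1⟩, hm⟩ := (InvImage.wf (fun x : W => x.1) ZFSet.mem_wf).has_min
      {ξ : W | ∃ z : W, z ∈ y ∧ op ξ z ∈ f'} ⟨⟨ξ0, tW.tr _ ho _ hξ0⟩, z0, hz0, mop_mem.2 h0⟩
    refine ⟨z, ⟨(hc z).2 ⟨mem_uni.2 ⟨y, hy, hz⟩, y, hy, hz, ξ, h1, fun η z' h2 h3 h4 => ?_⟩, hz⟩, ?_⟩
    · exact hm η ⟨z', h3, h2⟩ h4
    · rintro z' ⟨h2, h3⟩
      obtain ⟨-, y', hy', h4, ξ', h5, h6⟩ := (hc z').1 h2
      have hyy : y' = y := by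
        by_contra hne
        exact hdis y' y hy' hy hne ⟨z', h4, h3⟩
      subst hyy
      have h7 : ¬ ξ.1 ∈ ξ'.1 := h6 ξ z h1 hz
      have h8 : ¬ ξ'.1 ∈ ξ.1 := fun h => hm ξ' ⟨z', h3, h5⟩ h
      have h9 : ξ = ξ' := by
        rcases (ho'.mem (hdom _ _ h1)).mem_trichotomous (ho'.mem (hdom _ _ h5)) with h | h | h
        · exact absurd h h7
        · exact Subtype.ext h
        · exact absurd h h8
      subst h9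
      exact Subtype.ext ((hf2 ξ.1 (hdom _ _ h1)).unique (mop_mem.1 h5) (mop_mem.1 h1))

theorem Mod.of {W : Set ZFSet.{0}} (tW : TM W) (hwo : WoP W) : Mod W :=
  ⟨tW.tr, zfc_of_wo tW hwo, hwo⟩

variable {M : Set ZFSet.{0}} [tM : TM M] {Q : Po} {G : Set ZFSet.{0}}

/-- The well-ordering property of the generic extension. -/
theorem ext_wo (hG : Gen M Q G) (h : IsPo M Q) (hwo : WoP M) : WoP (Ext M G) := by
  rintro A ⟨a, ha, rfl⟩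
  obtain ⟨o, ho, ho', f, hf, hf1, hf2, hf3⟩ := hwo (ZU.dm (⟨a, ha⟩ : M)).1 (ZU.dm (⟨a, ha⟩ : M)).2
  let f' : M := ⟨f, hf⟩
  let o' : M := ⟨o, ho⟩
  have hap : ∀ ξ : M, ξ ∈ o' → op ξ (ap f' ξ) ∈ f' := by
    intro ξ hξ
    refine the_spec (P := fun y => op ξ y ∈ f') ?_
    obtain ⟨y, hy, hy'⟩ := hf2 ξ.1 hξ
    obtain ⟨x', y', h1, rfl, h3⟩ := mpair_ex (z := f') hy
    obtain rfl := Subtype.ext h1
    exact ⟨y', h3, fun w hw => Subtype.ext (hy' w.1 (mop_mem.1 hw))⟩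
  have hD : DF fun v : ℕ → M => opN h.om (chkM h.om (v 0)) (ap f' (v 0)) :=
    df_opN (df_const _) (df_chkM (df_const _) (df_var 0)) (df_ap (df_const _) (df_var 0))
  let F : M := nmS h.om (img o' fun ξ => opN h.om (chkM h.om ξ) (ap f' ξ))
  have hF : ∀ z, z ∈ val G F.1 ↔ ∃ ξ : M, ξ ∈ o' ∧ z = ZFSet.pair ξ.1 (val G (ap f' ξ).1) := by
    intro z
    have hv : ∀ ξ : M, val G (opN h.om (chkM h.om ξ) (ap f' ξ)).1 =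
        ZFSet.pair ξ.1 (val G (ap f' ξ).1) := by
      intro ξ
      rw [val_opN (o := h.om) hG.one, chkM_val (o := h.om) rfl, val_chk hG.one]
    rw [mem_nmS (o := h.om) hG.one]
    constructor
    · rintro ⟨w, hw, rfl⟩
      obtain ⟨ξ, hξ, rfl⟩ := (mem_img (F := fun ξ => opN h.om (chkM h.om ξ) (ap f' ξ)) hD).1 hw
      exact ⟨ξ, hξ, hv ξ⟩
    · rintro ⟨ξ, hξ, rfl⟩
      exact ⟨_, (mem_img (F := fun ξ => opN h.om (chkM h.om ξ) (ap f' ξ)) hD).2 ⟨ξ, hξ, rfl⟩,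
        (hv ξ).symm⟩
  refine ⟨o, sub_ext hG (fun x hx => chk_mem h hx) ho, ho', val G F.1, ⟨F.1, F.2, rfl⟩, ?_, ?_, ?_⟩
  · intro z hz
    obtain ⟨ξ, hξ, rfl⟩ := (hF z).1 hz
    exact ⟨ξ.1, hξ, _, rfl⟩
  · intro x hx
    refine ⟨val G (ap f' ⟨x, tM.tr _ ho _ hx⟩).1, (hF _).2 ⟨⟨x, tM.tr _ ho _ hx⟩, hx, rfl⟩, ?_⟩
    intro y hy
    obtain ⟨ξ, hξ, h1⟩ := (hF _).1 hy
    rw [ZFSet.pair_inj] at h1
    obtain ⟨rfl, rfl⟩ := h1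
    rfl
  · intro y hy
    obtain ⟨c, p, h1, h2, rfl⟩ := (mem_valM (x := ⟨a, ha⟩)).1 hy
    obtain ⟨x, hx, h3⟩ := hf3 c.1 (mem_dm.2 ⟨p, h1⟩ : c ∈ ZU.dm (⟨a, ha⟩ : M))
    refine ⟨x, hx, (hF _).2 ⟨⟨x, tM.tr _ ho _ hx⟩, hx, ?_⟩⟩
    have h4 := mop_mem.1 (hap ⟨x, tM.tr _ ho _ hx⟩ hx)
    have h5 : c.1 = (ap f' ⟨x, tM.tr _ ho _ hx⟩).1 := (hf2 x hx).unique h3 h4
    rw [h5]

/-- **The generic extension is a model.** -/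
theorem ext_mod {M : Set ZFSet.{0}} {Q : Po} {G : Set ZFSet.{0}} (hM : Mod M) (h : IsPo M Q)
    (hG : Gen M Q G) : Mod (Ext M G) := by
  have := hM.tm
  exact Mod.of ⟨Ext_trans hM.trans, ext_zfa hG h⟩ (ext_wo hG h hM.wo)

end CPY
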