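import Pool.Agent.CPY.B.Nms
import Pool.Agent.CPY.B.Coll

/-! # The generic extension is a model of ZF

(problem MP_ba5606_gt, project CPY, block (B2); no sorry in this file) -/

namespace CPY

open STP ZU

variable {M : Set ZFSet.{0}} [tM : TM M] {Q : Po} {G : Set ZFSet.{0}}

/-- Separation in the generic extension. -/
theorem ext_sep (h : IsPo M Q) (hG : Gen M Q G) (φ : Fml) (v : ℕ → Ext M G) (x : Ext M G) :
    ∃ y : Ext M G, ∀ z : Ext M G, z.1 ∈ y.1 ↔ z.1 ∈ x.1 ∧ sat (Em (Ext M G)) φ (cns z v) := by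
  obtain ⟨w, rfl⟩ := vals_surj v
  obtain ⟨a, rfl⟩ := vx_surj x
  have hD : Dfn fun u : ℕ → M => fm Q (fst (u 0)).1 a.1 (snd (u 0)).1 ∧
      ff M Q φ (cns (fst (u 0)) w) (snd (u 0)).1 := by
    refine dfn_and (dfn_fm h (df_fst (df_var 0)) (df_const a) (df_snd (df_var 0))) ?_
    refine (dfn_ff h φ (w := fun i u => match i with | 0 => fst (u 0) | n + 1 => w n)
      (p := fun u => snd (u 0)) ?_ (df_snd (df_var 0))).congr fun u => ?_
    · intro i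
      cases i with
      | zero => exact df_fst (df_var 0)
      | succ n => exact df_const _
    · have : (cns (fst (u 0)) w) = fun i => (match i with | 0 => fst (u 0) | n + 1 => w n : M) := by
        funext i
        cases i <;> rfl
      rw [this]
  have hs : ∀ b p : M, op b p ∈ sep (prd (ZU.dm a) h.Pm) (fun u => fm Q (fst u).1 a.1 (snd u).1 ∧
      ff M Q φ (cns (fst u) w) (snd u).1) ↔
      (b ∈ ZU.dm a ∧ p ∈ h.Pm) ∧ fm Q b.1 a.1 p.1 ∧ ff M Q φ (cns b w) p.1 := by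
    intro b p
    rw [ZU.mem_sep (P := fun u => fm Q (fst u).1 a.1 (snd u).1 ∧
      ff M Q φ (cns (fst u) w) (snd u).1) hD, op_mem_prd, fst_op, snd_op]
  refine ⟨vx G (sep (prd (ZU.dm a) h.Pm) (fun u => fm Q (fst u).1 a.1 (snd u).1 ∧
      ff M Q φ (cns (fst u) w) (snd u).1)), fun z => ?_⟩
  rw [vx_val, mem_valM]
  constructor
  · rintro ⟨b, p, h1, h2, h3⟩
    rw [hs] at h1
    obtain rfl : z = vx G b := Subtype.ext h3
    refine ⟨(truth_mem tM.tr h (fd h) hG b.2 a.2).2 ⟨p.1, h2, h1.2.1⟩, ?_⟩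
    have := (truth tM.tr h (fd h) hG φ (cns b w)).2 ⟨p.1, h2, h1.2.2⟩
    rwa [vals_cns] at this
  · rintro ⟨h1, h2⟩
    rw [vx_val, mem_valM] at h1
    obtain ⟨b, r, h3, h4, h5⟩ := h1
    obtain rfl : z = vx G b := Subtype.ext h5
    have h6 : sat (Em (Ext M G)) φ (vals G (cns b w)) := by
      rw [vals_cns]
      exact h2
    obtain ⟨p, hp, h7⟩ := (truth tM.tr h (fd h) hG φ (cns b w)).1 h6
    obtain ⟨p', hp', h8⟩ := (truth_mem tM.tr h (fd h) hG b.2 a.2).1 (mem_valM.2 ⟨b, r, h3, h4, rfl⟩)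
    obtain ⟨t, ht, ht1, ht2⟩ := hG.dir p hp p' hp'
    exact ⟨b, ⟨t, h.in_M (hG.sub t ht)⟩, (hs _ _).2 ⟨⟨mem_dm.2 ⟨r, h3⟩, hG.sub t ht⟩,
      fm_mono h h8 ht2, ff_mono h φ h7 ht1⟩, ht, rfl⟩

theorem ext_pair (hG : Gen M Q G) (h : IsPo M Q) (x y : Ext M G) :
    ∃ z : Ext M G, ∀ w : Ext M G, w.1 ∈ z.1 ↔ w = x ∨ w = y := by
  obtain ⟨a, rfl⟩ := vx_surj x
  obtain ⟨b, rfl⟩ := vx_surj y
  refine ⟨vx G (nmS h.om (up a b)), fun w => ?_⟩
  rw [vx_val, val_nmS_up (o := h.om) hG.one, ZFSet.mem_pair, Subtype.ext_iff, Subtype.ext_iff]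
  rfl

theorem ext_union (hG : Gen M Q G) (h : IsPo M Q) (x : Ext M G) :
    ∃ y : Ext M G, ∀ z : Ext M G, z.1 ∈ y.1 ↔ ∃ w : Ext M G, w.1 ∈ x.1 ∧ z.1 ∈ w.1 := by
  obtain ⟨a, rfl⟩ := vx_surj x
  have hD : DF fun v : ℕ → M => ZU.dm (v 0) := df_dm (df_var 0)
  obtain ⟨y, hy⟩ := ext_sep h hG (.ex (.an (.mem 0 2) (.mem 1 0))) (fun _ => vx G a)
    (vx G (nmS h.om (bU (ZU.dm a) ZU.dm)))
  refine ⟨y, fun z => (hy z).trans ?_⟩
  rw [sat_ex]
  simp only [sat_an, sat_mem, cns_zero, cns_succ]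
  constructor
  · rintro ⟨-, w, h1, h2⟩
    exact ⟨w, h1, h2⟩
  · rintro ⟨w, h1, h2⟩
    refine ⟨?_, w, h1, h2⟩
    rw [vx_val, mem_valM] at h1
    obtain ⟨b, p, h3, h4, h5⟩ := h1
    obtain rfl : w = vx G b := Subtype.ext h5
    rw [vx_val, mem_valM] at h2
    obtain ⟨c, q, h6, h7, h8⟩ := h2
    rw [vx_val, mem_nmS (o := h.om) hG.one]
    exact ⟨c, (mem_bU hD).2 ⟨b, mem_dm.2 ⟨p, h3⟩, mem_dm.2 ⟨q, h6⟩⟩, h8⟩

theorem ext_power (hG : Gen M Q G) (h : IsPo M Q) (x : Ext M G) :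
    ∃ y : Ext M G, ∀ z : Ext M G, z.1 ∈ y.1 ↔ ∀ w : Ext M G, w.1 ∈ z.1 → w.1 ∈ x.1 := by
  obtain ⟨a, rfl⟩ := vx_surj x
  obtain ⟨y, hy⟩ := ext_sep h hG (.all (.imp (.mem 0 1) (.mem 0 2))) (fun _ => vx G a)
    (vx G (nmS h.om (pw (prd (ZU.dm a) h.Pm))))
  refine ⟨y, fun z => (hy z).trans ?_⟩
  rw [sat_all]
  simp only [sat_imp, sat_mem, cns_zero, cns_succ]
  refine ⟨fun h1 => h1.2, fun h1 => ⟨?_, h1⟩⟩
  obtain ⟨b, rfl⟩ := vx_surj z
  have hD : Dfn fun u : ℕ → M => fm Q (fst (u 0)).1 b.1 (snd (u 0)).1 :=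
    dfn_fm h (df_fst (df_var 0)) (df_const b) (df_snd (df_var 0))
  rw [vx_val, mem_nmS (o := h.om) hG.one]
  refine ⟨sep (prd (ZU.dm a) h.Pm) (fun u : M => fm Q (fst u).1 b.1 (snd u).1), ?_, ?_⟩
  · rw [mem_pw]
    intro u hu
    exact ((ZU.mem_sep (P := fun u : M => fm Q (fst u).1 b.1 (snd u).1) hD).1 hu).1
  · have hs : ∀ c p : M, op c p ∈ sep (prd (ZU.dm a) h.Pm) (fun u : M => fm Q (fst u).1 b.1 (snd u).1)
        ↔ (c ∈ ZU.dm a ∧ p ∈ h.Pm) ∧ fm Q c.1 b.1 p.1 := by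
      intro c p
      rw [ZU.mem_sep (P := fun u : M => fm Q (fst u).1 b.1 (snd u).1) hD, op_mem_prd, fst_op, snd_op]
    ext u
    constructor
    · intro hu
      obtain ⟨c, p, h2, h3, rfl⟩ := mem_valM.1 hu
      have h4 : (vx G c).1 ∈ (vx G b).1 := mem_valM.2 ⟨c, p, h2, h3, rfl⟩
      have h5 := h1 (vx G c) h4
      rw [vx_val, mem_valM] at h5
      obtain ⟨d, r, h6, h7, h8⟩ := h5
      rw [vx_val] at h8
      rw [h8] at hu ⊢
      obtain ⟨q, hq, h9⟩ := (truth_mem tM.tr h (fd h) hG d.2 b.2).1 hu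
      exact mem_valM.2 ⟨d, ⟨q, h.in_M (hG.sub q hq)⟩,
        (hs _ _).2 ⟨⟨mem_dm.2 ⟨r, h6⟩, hG.sub q hq⟩, h9⟩, hq, rfl⟩
    · intro hu
      obtain ⟨c, p, h2, h3, rfl⟩ := mem_valM.1 hu
      rw [hs] at h2
      exact (truth_mem tM.tr h (fd h) hG c.2 b.2).2 ⟨p.1, h3, h2.2⟩

theorem ext_infinity (hG : Gen M Q G) (h : IsPo M Q) :
    ∃ x : Ext M G, (∃ y : Ext M G, y.1 ∈ x.1 ∧ ∀ z : Ext M G, ¬ z.1 ∈ y.1) ∧
    ∀ y : Ext M G, y.1 ∈ x.1 → ∃ z : Ext M G, z.1 ∈ x.1 ∧ ∀ w : Ext M G, w.1 ∈ z.1 ↔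
      w.1 ∈ y.1 ∨ w = y := by
  obtain ⟨x, ⟨y, hy, hy'⟩, hx⟩ := tM.ax.infinity
  have hME : ∀ a : M, a.1 ∈ Ext M G := fun a => sub_ext hG (fun x hx => chk_mem h hx) a.2
  refine ⟨⟨x.1, hME x⟩, ⟨⟨y.1, hME y⟩, hy, fun z hz => ?_⟩, fun y hy => ?_⟩
  · exact hy' ⟨z.1, tM.tr _ y.2 _ hz⟩ hz
  · obtain ⟨z, hz, hz'⟩ := hx ⟨y.1, tM.tr _ x.2 _ hy⟩ hy
    refine ⟨⟨z.1, hME z⟩, hz, fun w => ?_⟩
    constructor
    · intro hw
      have := (hz' ⟨w.1, tM.tr _ z.2 _ hw⟩).1 hw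
      rcases this with h1 | h1
      · exact Or.inl h1
      · exact Or.inr (Subtype.ext (congrArg (fun a : M => a.1) h1))
    · intro hw
      have hwM : w.1 ∈ M := by
        rcases hw with h1 | h1
        · exact tM.tr _ (tM.tr _ x.2 _ hy) _ h1
        · rw [h1]
          exact tM.tr _ x.2 _ hy
      refine (hz' ⟨w.1, hwM⟩).2 ?_
      rcases hw with h1 | h1
      · exact Or.inl h1
      · exact Or.inr (Subtype.ext (congrArg (fun a : Ext M G => a.1) h1))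

theorem ext_replacement (hG : Gen M Q G) (h : IsPo M Q) (φ : Fml) (v : ℕ → Ext M G)
    (x : Ext M G) (hx : ∀ z : Ext M G, z.1 ∈ x.1 → ∃! w, sat (Em (Ext M G)) φ (cns w (cns z v))) :
    ∃ y : Ext M G, ∀ w : Ext M G, w.1 ∈ y.1 ↔ ∃ z : Ext M G, z.1 ∈ x.1 ∧
      sat (Em (Ext M G)) φ (cns w (cns z v)) := by
  obtain ⟨u, rfl⟩ := vals_surj v
  obtain ⟨a, rfl⟩ := vx_surj x
  -- collection in `M`
  have hR : Dfn fun v : ℕ → M => ff M Q φ (cns (v 1) (cns (fst (v 0)) u)) (snd (v 0)).1 := by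
    refine (dfn_ff h φ (w := fun i v => match i with
      | 0 => v 1 | 1 => fst (v 0) | n + 2 => u n)
      (p := fun u => snd (u 0)) ?_ (df_snd (df_var 0))).congr fun v => ?_
    · intro i
      rcases i with _ | _ | n
      · exact df_var 1
      · exact df_fst (df_var 0)
      · exact df_const _
    · have : (cns (v 1) (cns (fst (v 0)) u)) = fun i => (match i with
          | 0 => v 1 | 1 => fst (v 0) | n + 2 => u n : M) := by
        funext i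
        rcases i with _ | _ | n <;> rfl
      rw [this]
  obtain ⟨K, hK⟩ := coll (R := fun c w => ff M Q φ (cns w (cns (fst c) u)) (snd c).1) hR
    (prd (ZU.dm a) h.Pm)
  obtain ⟨y, hy⟩ := ext_sep h hG (.ex (.an (.mem 0 2) (CPI.ren (fun n => match n with
    | 0 => 1 | 1 => 0 | n + 2 => n + 3) φ))) (cns (vx G a) (vals G u)) (vx G (nmS h.om K))
  refine ⟨y, fun w => (hy w).trans ?_⟩
  rw [sat_ex]
  have hcns : ∀ z : Ext M G, cns z (cns w (cns (vx G a) (vals G u))) ∘ (fun n => match n with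
      | 0 => 1 | 1 => 0 | n + 2 => n + 3) = cns w (cns z (vals G u)) := by
    intro z
    funext n
    rcases n with _ | _ | n <;> rfl
  simp only [sat_an, sat_mem, cns_zero, cns_succ, CPI.sat_ren, hcns]
  refine ⟨fun h1 => h1.2, fun h1 => ⟨?_, h1⟩⟩
  obtain ⟨z, hz, h2⟩ := h1
  have hz0 := hz
  rw [vx_val, mem_valM] at hz
  obtain ⟨b, p, h3, h4, h5⟩ := hz
  obtain rfl : z = vx G b := Subtype.ext h5
  obtain ⟨c, rfl⟩ := vx_surj w
  have h6 : sat (Em (Ext M G)) φ (vals G (cns c (cns b u))) := by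
    rw [vals_cns, vals_cns]
    exact h2
  obtain ⟨q, hq, h7⟩ := (truth tM.tr h (fd h) hG φ _).1 h6
  obtain ⟨c', hc', h8⟩ := hK (op b ⟨q, h.in_M (hG.sub q hq)⟩)
    (op_mem_prd.2 ⟨mem_dm.2 ⟨p, h3⟩, hG.sub q hq⟩) ⟨c, by rw [fst_op, snd_op]; exact h7⟩
  rw [fst_op, snd_op] at h8
  have h9 := (truth tM.tr h (fd h) hG φ _).2 ⟨q, hq, h8⟩
  rw [vals_cns, vals_cns] at h9
  have h10 : vx G c = vx G c' := (hx (vx G b) hz0).unique h2 h9
  rw [h10, vx_val, vx_val, mem_nmS (o := h.om) hG.one]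
  exact ⟨c', hc', rfl⟩

/-- **The generic extension is a model of ZF.** -/
theorem ext_zfa (hG : Gen M Q G) (h : IsPo M Q) : ZFA (Em (Ext M G)) where
  ext x y hxy := by
    refine Subtype.ext (ZFSet.ext fun z => ⟨fun hz => ?_, fun hz => ?_⟩)
    · exact (hxy ⟨z, Ext_trans tM.tr _ x.2 _ hz⟩).1 hz
    · exact (hxy ⟨z, Ext_trans tM.tr _ y.2 _ hz⟩).2 hz
  pair := ext_pair hG h
  union := ext_union hG h
  power := ext_power hG h
  infinity := ext_infinity hG h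
  separation φ v x := ext_sep h hG φ v x
  replacement φ v x hx := ext_replacement hG h φ v x hx

end CPY
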