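import Pool.Agent.CPY.B.FeD

/-! # The closure properties `FD` of the ground model

(problem MP_ba5606_gt, project CPY, block (B2); no sorry in this file) -/

namespace CPY

open STP ZU

variable {M : Set ZFSet.{0}} [tM : TM M] {Q : Po}

theorem all_le (h : IsPo M Q) {p : M} {R : ZFSet.{0} → Prop} :
    (∀ q, Q.le q p.1 → R q) ↔ ∀ q : M, op q p ∈ h.Lm → R q.1 := by
  constructor
  · exact fun h1 q hq => h1 q.1 (h.leM.1 hq)
  · exact fun h1 q hq => h1 ⟨q, h.in_M (h.left_mem hq)⟩ (h.leM.2 hq)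

theorem ex_pair {x : M} {R : ZFSet.{0} → ZFSet.{0} → Prop} :
    (∃ w s, ZFSet.pair w s ∈ x.1 ∧ R w s) ↔ ∃ w s : M, op w s ∈ x ∧ R w.1 s.1 := by
  constructor
  · rintro ⟨w, s, h1, h2⟩
    obtain ⟨w', s', rfl, rfl, h3⟩ := mpair_ex h1
    exact ⟨w', s', h3, h2⟩
  · rintro ⟨w, s, h1, h2⟩
    exact ⟨w.1, s.1, mop_mem.1 h1, h2⟩

theorem dfn_le (h : IsPo M Q) {q p : (ℕ → M) → M} (hq : DF q) (hp : DF p) :
    Dfn fun v => Q.le (q v).1 (p v).1 :=
  (dfn_mem (df_op hq hp) (df_const h.Lm)).congr fun _ => h.leM.symm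

/-- The closure properties of the ground model. -/
theorem fd (h : IsPo M Q) : FD M Q where
  d0 A hA p hp := by
    refine sep_mem h.P_mem (R := fun q => q ∈ A ∨ ∀ r, Q.le r q → ¬ Q.le r p) ?_
    refine dfn_or (dfn_mem (df_var 0) (df_const (⟨A, hA⟩ : M))) ?_
    refine (dfn_all (R := fun r v => op r (v 0) ∈ h.Lm → ¬ op r ⟨p, h.in_M hp⟩ ∈ h.Lm)
      ?_).congr fun v => ?_
    · exact dfn_imp (dfn_mem (df_op (df_var 0) (df_var 1)) (df_const _))
        (dfn_not (dfn_mem (df_op (df_var 0) (df_const _)) (df_const _)))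
    · rw [all_le h]
      exact forall_congr' fun r => imp_congr_right fun _ => not_congr
        (h.leM (p := ⟨p, h.in_M hp⟩)).symm
  d1 z hz y hy := by
    refine sep_mem h.P_mem
      (R := fun q => ∃ w s, ZFSet.pair w s ∈ y ∧ Q.le q s ∧ fe Q z w q) ?_
    refine (dfn_ex (R := fun w v => ∃ s, op w s ∈ (⟨y, hy⟩ : M) ∧ Q.le (v 0).1 s.1 ∧
      fe Q z w.1 (v 0).1) (dfn_ex (R := fun s v => op (v 0) s ∈ (⟨y, hy⟩ : M) ∧
        Q.le (v 1).1 s.1 ∧ fe Q z (v 0).1 (v 1).1) ?_)).congr fun v => ?_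
    · exact dfn_and (dfn_mem (df_op (df_var 1) (df_var 0)) (df_const _))
        (dfn_and (dfn_le h (df_var 2) (df_var 0))
          (dfn_fe h (df_const (⟨z, hz⟩ : M)) (df_var 1) (df_var 2)))
    · exact ex_pair (x := ⟨y, hy⟩)
  d2 x hx y hy := by
    refine sep_mem h.P_mem (R := fun q => fe Q x y q ∨
      (∃ z r, ZFSet.pair z r ∈ x ∧ Q.le q r ∧ ∀ q', Q.le q' q → ¬ fm Q z y q') ∨
      (∃ w s, ZFSet.pair w s ∈ y ∧ Q.le q s ∧ ∀ q', Q.le q' q → ¬ fm Q w x q')) ?_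
    have key : ∀ x y : M, Dfn fun v : ℕ → M => ∃ z r, ZFSet.pair z r ∈ x.1 ∧ Q.le (v 0).1 r ∧
        ∀ q', Q.le q' (v 0).1 → ¬ fm Q z y q' := by
      intro x y
      refine (dfn_ex (R := fun z v => ∃ r, op z r ∈ x ∧ Q.le (v 0).1 r.1 ∧
        ∀ q' : M, op q' (v 0) ∈ h.Lm → ¬ fm Q z.1 y.1 q'.1) (dfn_ex (R := fun r v =>
          op (v 0) r ∈ x ∧ Q.le (v 1).1 r.1 ∧
          ∀ q' : M, op q' (v 1) ∈ h.Lm → ¬ fm Q (v 0).1 y.1 q'.1) ?_)).congr fun v => ?_
      · refine dfn_and (dfn_mem (df_op (df_var 1) (df_var 0)) (df_const _))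
          (dfn_and (dfn_le h (df_var 2) (df_var 0)) (dfn_all (R := fun q' v =>
            op q' (v 2) ∈ h.Lm → ¬ fm Q (v 1).1 y.1 q'.1) ?_))
        exact dfn_imp (dfn_mem (df_op (df_var 0) (df_var 3)) (df_const _))
          (dfn_not (dfn_fm h (df_var 2) (df_const y) (df_var 0)))
      · rw [ex_pair (R := fun z r => Q.le (v 0).1 r ∧ ∀ q', Q.le q' (v 0).1 → ¬ fm Q z y q')]
        refine exists_congr fun z => exists_congr fun r => and_congr_right fun _ =>
          and_congr_right fun _ => ?_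
        exact all_le h (R := fun q' => ¬ fm Q z.1 y.1 q')
    exact dfn_or (dfn_fe h (df_const (⟨x, hx⟩ : M)) (df_const (⟨y, hy⟩ : M)) (df_var 0))
      (dfn_or (key ⟨x, hx⟩ ⟨y, hy⟩) (key ⟨y, hy⟩ ⟨x, hx⟩))
  d3 φ w := by
    refine sep_mem h.P_mem (R := fun q => ff M Q φ w q ∨ ff M Q φ.no w q) ?_
    exact dfn_or (dfn_ff h φ (w := fun i _ => w i) (fun i => df_const _) (df_var 0))
      (dfn_ff h φ.no (w := fun i _ => w i) (fun i => df_const _) (df_var 0))
  d4 φ w := by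
    refine sep_mem h.P_mem
      (R := fun q => ff M Q (.all φ) w q ∨ ∃ x : M, ff M Q φ.no (cns x w) q) ?_
    refine dfn_or (dfn_ff h (.all φ) (w := fun i _ => w i) (fun i => df_const _) (df_var 0)) ?_
    refine dfn_ex (R := fun x v => ff M Q φ.no (cns x w) (v 0).1) ?_
    refine (dfn_ff h φ.no (w := fun i v => match i with | 0 => v 0 | n + 1 => w n)
      (p := fun v => v 1) ?_ (df_var 1)).congr fun v => ?_
    · intro i
      cases i with
      | zero => exact df_var 0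
      | succ n => exact df_const _
    · have : (cns (v 0) w) = fun i => (match i with | 0 => v 0 | n + 1 => w n : M) := by
        funext i
        cases i <;> rfl
      rw [this]

end CPY
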