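import Pool.Agent.CPY.B.Defs

/-! # Forcing over a countable transitive model: monotonicity and regularity of the forcing relation

(problem MP_ba5606_gt, project CPY, block (B)) -/

namespace CPY

open STP

variable {M : Set ZFSet.{0}} {Q : Po}

theorem IsPo.left_mem (h : IsPo M Q) {q p : ZFSet.{0}} (hq : Q.le q p) : q ∈ Q.P := by
  obtain ⟨a, ha, b, hb, he⟩ := h.sub _ hq
  rw [ZFSet.pair_inj] at he
  exact he.1 ▸ ha

theorem IsPo.right_mem (h : IsPo M Q) {q p : ZFSet.{0}} (hq : Q.le q p) : p ∈ Q.P := by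
  obtain ⟨a, ha, b, hb, he⟩ := h.sub _ hq
  rw [ZFSet.pair_inj] at he
  exact he.2 ▸ hb

theorem fe_mono (h : IsPo M Q) {x y p q : ZFSet.{0}} (hf : fe Q x y p) (hq : Q.le q p) :
    fe Q x y q := by
  rw [fe_iff] at hf ⊢
  exact ⟨fun z r hz q' h1 h2 => hf.1 z r hz q' (h.trans _ _ _ h1 hq) h2,
    fun w s hw q' h1 h2 => hf.2 w s hw q' (h.trans _ _ _ h1 hq) h2⟩

theorem fe_reg (h : IsPo M Q) {x y p : ZFSet.{0}}
    (hf : ∀ q, Q.le q p → ∃ r, Q.le r q ∧ fe Q x y r) : fe Q x y p := by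
  rw [fe_iff]
  constructor
  · intro z r hz q h1 h2
    obtain ⟨r', h3, h4⟩ := hf q h1
    rw [fe_iff] at h4
    obtain ⟨q', h5, h6⟩ := h4.1 z r hz r' (h.refl _ (h.left_mem h3)) (h.trans _ _ _ h3 h2)
    exact ⟨q', h.trans _ _ _ h5 h3, h6⟩
  · intro w s hw q h1 h2
    obtain ⟨r', h3, h4⟩ := hf q h1
    rw [fe_iff] at h4
    obtain ⟨q', h5, h6⟩ := h4.2 w s hw r' (h.refl _ (h.left_mem h3)) (h.trans _ _ _ h3 h2)
    exact ⟨q', h.trans _ _ _ h5 h3, h6⟩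

theorem fe_comm {x y p : ZFSet.{0}} : fe Q x y p ↔ fe Q y x p := by
  induction x using dm_wf.induction generalizing y p with
  | _ x IH =>
    rw [fe_iff, fe_iff]
    constructor
    · rintro ⟨h1, h2⟩
      refine ⟨fun w s hw q hq hs => ?_, fun z r hz q hq hr => ?_⟩
      · obtain ⟨q', h3, z, r, h4, h5, h6⟩ := h2 w s hw q hq hs
        exact ⟨q', h3, z, r, h4, h5, (IH z ⟨r, h4⟩).1 h6⟩
      · obtain ⟨q', h3, w, s, h4, h5, h6⟩ := h1 z r hz q hq hr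
        exact ⟨q', h3, w, s, h4, h5, (IH z ⟨r, hz⟩).1 h6⟩
    · rintro ⟨h1, h2⟩
      refine ⟨fun z r hz q hq hr => ?_, fun w s hw q hq hs => ?_⟩
      · obtain ⟨q', h3, w, s, h4, h5, h6⟩ := h2 z r hz q hq hr
        exact ⟨q', h3, w, s, h4, h5, (IH z ⟨r, hz⟩).2 h6⟩
      · obtain ⟨q', h3, z, r, h4, h5, h6⟩ := h1 w s hw q hq hs
        exact ⟨q', h3, z, r, h4, h5, (IH z ⟨r, h4⟩).2 h6⟩

theorem fe_refl (h : IsPo M Q) (x : ZFSet.{0}) {p : ZFSet.{0}} (hp : p ∈ Q.P) : fe Q x x p := by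
  induction x using dm_wf.induction generalizing p with
  | _ x IH =>
    rw [fe_iff]
    refine ⟨fun z r hz q hq hr => ?_, fun z r hz q hq hr => ?_⟩
    · exact ⟨q, h.refl _ (h.left_mem hq), z, r, hz, hr, IH z ⟨r, hz⟩ (h.left_mem hq)⟩
    · exact ⟨q, h.refl _ (h.left_mem hq), z, r, hz, hr, IH z ⟨r, hz⟩ (h.left_mem hq)⟩

theorem fm_mono (h : IsPo M Q) {x y p q : ZFSet.{0}} (hf : fm Q x y p) (hq : Q.le q p) :
    fm Q x y q := fun r hr => hf r (h.trans _ _ _ hr hq)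

theorem fm_reg (h : IsPo M Q) {x y p : ZFSet.{0}}
    (hf : ∀ q, Q.le q p → ∃ r, Q.le r q ∧ fm Q x y r) : fm Q x y p := by
  intro q hq
  obtain ⟨r, h1, h2⟩ := hf q hq
  obtain ⟨q', h3, h4⟩ := h2 r (h.refl _ (h.left_mem h1))
  exact ⟨q', h.trans _ _ _ h3 h1, h4⟩

/-- an element `(w, s)` of `y` and a condition below `s` which forces `x = w` -/
theorem fm_of (h : IsPo M Q) {x y w s p : ZFSet.{0}} (hw : ZFSet.pair w s ∈ y) (hs : Q.le p s)
    (hf : fe Q x w p) : fm Q x y p := fun q hq =>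
  ⟨q, h.refl _ (h.left_mem hq), w, s, hw, h.trans _ _ _ hq hs, fe_mono h hf hq⟩

theorem ff_mono (h : IsPo M Q) (φ : Fml) {v : ℕ → M} {p q : ZFSet.{0}} (hf : ff M Q φ v p)
    (hq : Q.le q p) : ff M Q φ v q := by
  induction φ generalizing v p q with
  | mem i j => exact fm_mono h hf hq
  | eq i j => exact fe_mono h hf hq
  | bot => exact hf
  | imp φ ψ _ _ => exact fun r hr => hf r (h.trans _ _ _ hr hq)
  | all φ ih => exact fun x => ih (hf x) hq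

theorem ff_reg (h : IsPo M Q) (φ : Fml) {v : ℕ → M} {p : ZFSet.{0}} (hp : p ∈ Q.P)
    (hf : ∀ q, Q.le q p → ∃ r, Q.le r q ∧ ff M Q φ v r) : ff M Q φ v p := by
  induction φ generalizing v p with
  | mem i j => exact fm_reg h hf
  | eq i j => exact fe_reg h hf
  | bot =>
    obtain ⟨r, _, h2⟩ := hf p (h.refl p hp)
    exact h2
  | imp φ ψ _ ih =>
    intro q hq h1
    refine ih (h.left_mem hq) fun r hr => ?_
    obtain ⟨r', h2, h3⟩ := hf r (h.trans _ _ _ hr hq)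
    exact ⟨r', h2, h3 r' (h.refl _ (h.left_mem h2)) (ff_mono h φ h1 (h.trans _ _ _ h2 hr))⟩
  | all φ ih =>
    intro x
    refine ih hp fun q hq => ?_
    obtain ⟨r, h1, h2⟩ := hf q hq
    exact ⟨r, h1, h2 x⟩

/-- `p` forces the negation iff no extension forces the formula -/
theorem ff_no {φ : Fml} {v : ℕ → M} {p : ZFSet.{0}} :
    ff M Q φ.no v p ↔ ∀ q, Q.le q p → ¬ ff M Q φ v q := Iff.rfl

/-- a condition which does not force `φ` has an extension forcing `¬ φ` -/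
theorem exists_ff_no (h : IsPo M Q) (φ : Fml) {v : ℕ → M} {p : ZFSet.{0}} (hp : p ∈ Q.P)
    (hf : ¬ ff M Q φ v p) : ∃ q, Q.le q p ∧ ff M Q φ.no v q := by
  by_contra hc
  refine hf (ff_reg h φ hp fun q hq => ?_)
  by_contra hd
  exact hc ⟨q, hq, fun r hr h3 => hd ⟨r, hr, h3⟩⟩

end CPY
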