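import Pool.Agent.CPY.B.Mz

/-! # The forcing relation is definable over the ground model

(problem MP_ba5606_gt, project CPY, block (B2); no sorry in this file) -/

universe v

namespace CPY

open STP ZU

section

variable {N : Type v} [ZM N]

/-- the clause of the recursion for `p ⊩ x = y` -/
def feC (L x f y p : N) : Prop :=
  (∀ z r, op z r ∈ x → ∀ q, op q p ∈ L → op q r ∈ L →
    ∃ q', op q' q ∈ L ∧ ∃ w s, op w s ∈ y ∧ op q' s ∈ L ∧ op w q' ∈ ap f z) ∧
  (∀ w s, op w s ∈ y → ∀ q, op q p ∈ L → op q s ∈ L →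
    ∃ q', op q' q ∈ L ∧ ∃ z r, op z r ∈ x ∧ op q' r ∈ L ∧ op w q' ∈ ap f z)

@[simp] theorem dfn_feC {L x f y p : (ℕ → N) → N} (hL : DF L) (hx : DF x) (hf : DF f) (hy : DF y)
    (hp : DF p) : Dfn fun v => feC (L v) (x v) (f v) (y v) (p v) :=
  dfn5 (P := feC) (by unfold feC; simp (maxDischargeDepth := 99)) hL hx hf hy hp

/-- the recursion step for the forcing relation of equality -/
noncomputable def feG (P L A x f : N) : N := sep (prd A P) fun u => feC L x f (fst u) (snd u)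

@[simp] theorem df_feG {P L A x f : (ℕ → N) → N} (hP : DF P) (hL : DF L) (hA : DF A) (hx : DF x)
    (hf : DF f) : DF fun v => feG (P v) (L v) (A v) (x v) (f v) :=
  df5 (F := feG) (by unfold feG; simp (maxDischargeDepth := 99)) hP hL hA hx hf

/-- the relation `p ⊩ x = y` as a function of `x` with values `{(y, p) : y ∈ A, p ⊩ x = y}` -/
noncomputable def feF (P L A x : N) : N := WRec (fun x => ZU.dm x) (fun x f => feG P L A x f) x

@[simp] theorem df_feF {P L A x : (ℕ → N) → N} (hP : DF P) (hL : DF L) (hA : DF A) (hx : DF x) :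
    DF fun v => feF (P v) (L v) (A v) (x v) := by
  unfold feF
  refine df_wrec (pr := fun x _ => ZU.dm x) (G := fun x f v => feG (P v) (L v) (A v) x f)
    (df_dm (df_var 0)) ?_ hx
  exact df_feG (df_ren (fun i => i + 2) hP) (df_ren (fun i => i + 2) hL)
    (df_ren (fun i => i + 2) hA) (df_var 0) (df_var 1)

theorem feF_eq (hi : IndP fun x : N => ZU.dm x) (P L A x : N) :
    feF P L A x = feG P L A x (lam (ZU.dm x) (feF P L A)) :=
  wrec_eq (pr := fun x : N => ZU.dm x) (G := fun x f => feG P L A x f)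
    (df_dm (df_var 0)) (df_feG (df_const P) (df_const L) (df_const A) (df_var 0) (df_var 1)) hi x

/-- `p ⊩ x = y` in the model -/
def feM (P L x y p : N) : Prop :=
  p ∈ P → op y p ∈ feF P L (clo (fun x => ZU.dm x) y) x

@[simp] theorem dfn_feM {P L x y p : (ℕ → N) → N} (hP : DF P) (hL : DF L) (hx : DF x) (hy : DF y)
    (hp : DF p) : Dfn fun v => feM (P v) (L v) (x v) (y v) (p v) :=
  dfn5 (P := feM) (by
    unfold feM
    refine dfn_imp (dfn_mem (df_var 4) (df_var 0)) (dfn_mem (df_op (df_var 3) (df_var 4))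
      (df_feF (df_var 0) (df_var 1) ?_ (df_var 2)))
    exact df_clo (pr := fun x _ => ZU.dm x) (df_dm (df_var 0)) (df_var 3)) hP hL hx hy hp

/-- `p ⊩ x ∈ y` in the model -/
def fmM (P L x y p : N) : Prop :=
  ∀ q, op q p ∈ L → ∃ q', op q' q ∈ L ∧ ∃ w s, op w s ∈ y ∧ op q' s ∈ L ∧ feM P L x w q'

@[simp] theorem dfn_fmM {P L x y p : (ℕ → N) → N} (hP : DF P) (hL : DF L) (hx : DF x) (hy : DF y)
    (hp : DF p) : Dfn fun v => fmM (P v) (L v) (x v) (y v) (p v) :=
  dfn5 (P := fmM) (by unfold fmM; simp (maxDischargeDepth := 99)) hP hL hx hy hp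

/-- the forcing relation in the model -/
def ffM (P L : N) : Fml → (ℕ → N) → N → Prop
  | .mem i j, v, p => fmM P L (v i) (v j) p
  | .eq i j, v, p => feM P L (v i) (v j) p
  | .bot, _, _ => False
  | .imp φ ψ, v, p => ∀ q, op q p ∈ L → ffM P L φ v q → ffM P L ψ v q
  | .all φ, v, p => ∀ x, ffM P L φ (cns x v) p

theorem dfn_ffM (P L : N) (φ : Fml) : ∀ (w : ℕ → (ℕ → N) → N) (p : (ℕ → N) → N),
    (∀ i, DF (w i)) → DF p → Dfn fun v => ffM P L φ (fun i => w i v) (p v) := by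
  induction φ with
  | mem i j => exact fun w p hw hp => dfn_fmM (df_const P) (df_const L) (hw i) (hw j) hp
  | eq i j => exact fun w p hw hp => dfn_feM (df_const P) (df_const L) (hw i) (hw j) hp
  | bot => exact fun w p hw hp => dfn_const False
  | imp φ ψ h1 h2 =>
    intro w p hw hp
    refine dfn_all (R := fun q v => op q (p v) ∈ L → ffM P L φ (fun i => w i v) q →
      ffM P L ψ (fun i => w i v) q) (dfn_imp ?_ (dfn_imp ?_ ?_))
    · exact dfn_mem (df_op (df_var 0) hp.wk) (df_const L)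
    · exact h1 (fun i v => w i fun j => v (j + 1)) (fun v => v 0) (fun i => (hw i).wk) (df_var 0)
    · exact h2 (fun i v => w i fun j => v (j + 1)) (fun v => v 0) (fun i => (hw i).wk) (df_var 0)
  | all φ h1 =>
    intro w p hw hp
    refine dfn_all (R := fun x v => ffM P L φ (cns x fun i => w i v) (p v)) ?_
    refine (h1 (fun i v => match i with | 0 => v 0 | n + 1 => w n fun j => v (j + 1))
      (fun v => p fun i => v (i + 1)) ?_ hp.wk).congr fun v => ?_
    · intro i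
      cases i with
      | zero => exact df_var 0
      | succ n => exact (hw n).wk
    · have : (cns (v 0) fun i => w i fun j => v (j + 1)) = fun i => (match i with
          | 0 => v 0 | n + 1 => w n fun j => v (j + 1) : N) := by
        funext i
        cases i <;> rfl
      beta_reduce
      rw [this]

end

variable {M : Set ZFSet.{0}} [tM : TM M] {Q : Po}

/-- the order as an element of `M` -/
def IsPo.Lm (h : IsPo M Q) : M := ⟨Q.L, h.L_mem⟩

/-- the set of conditions as an element of `M` -/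
def IsPo.Pm (h : IsPo M Q) : M := ⟨Q.P, h.P_mem⟩

omit tM in
theorem IsPo.Lm_val (h : IsPo M Q) : h.Lm.1 = Q.L := rfl

theorem IsPo.leM (h : IsPo M Q) {p q : M} : op q p ∈ h.Lm ↔ Q.le q.1 p.1 := mop_mem

theorem IsPo.pm_iff (h : IsPo M Q) {p : M} : p ∈ h.Pm ↔ p.1 ∈ Q.P := Iff.rfl

theorem IsPo.in_M (h : IsPo M Q) {p : ZFSet.{0}} (hp : p ∈ Q.P) : p ∈ M := tM.tr _ h.P_mem _ hp

/-- the quantifiers of the forcing relation range over elements of `M` -/
theorem feM_aux (h : IsPo M Q) {x y : M} {R : M → M → M → Prop} {S : ZFSet.{0} → ZFSet.{0} →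
    ZFSet.{0} → Prop} {p : M}
    (hR : ∀ z w q : M, z ∈ ZU.dm x → w ∈ ZU.dm y → q ∈ h.Pm → (R z w q ↔ S z.1 w.1 q.1)) :
    (∀ z r : M, op z r ∈ x → ∀ q, op q p ∈ h.Lm → op q r ∈ h.Lm →
      ∃ q', op q' q ∈ h.Lm ∧ ∃ w s, op w s ∈ y ∧ op q' s ∈ h.Lm ∧ R z w q') ↔
    (∀ z r, ZFSet.pair z r ∈ x.1 → ∀ q, Q.le q p.1 → Q.le q r →
      ∃ q', Q.le q' q ∧ ∃ w s, ZFSet.pair w s ∈ y.1 ∧ Q.le q' s ∧ S z w q') := by
  constructor
  · intro h1 z r hz q hq hr
    obtain ⟨z', r', rfl, rfl, hz'⟩ := mpair_ex hz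
    obtain ⟨q', hq', w, s, h3, h4, h5⟩ := h1 z' r' hz' ⟨q, h.in_M (h.left_mem hq)⟩
      (h.leM.2 hq) (h.leM.2 hr)
    exact ⟨q'.1, h.leM.1 hq', w.1, s.1, mop_mem.1 h3, h.leM.1 h4, (hR z' w q'
      (mem_dm.2 ⟨_, hz'⟩) (mem_dm.2 ⟨_, h3⟩) (h.left_mem (h.leM.1 hq'))).1 h5⟩
  · intro h1 z r hz q hq hr
    obtain ⟨q', hq', w, s, h3, h4, h5⟩ := h1 z.1 r.1 (mop_mem.1 hz) q.1 (h.leM.1 hq)
      (h.leM.1 hr)
    obtain ⟨w', s', rfl, rfl, hw'⟩ := mpair_ex h3
    refine ⟨⟨q', h.in_M (h.left_mem hq')⟩, h.leM.2 hq', w', s', hw', h.leM.2 h4, ?_⟩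
    exact (hR z w' _ (mem_dm.2 ⟨_, hz⟩) (mem_dm.2 ⟨_, hw'⟩) (h.left_mem hq')).2 h5

theorem op_mem_feF (h : IsPo M Q) {A : M} (hA : Cl (fun x => ZU.dm x) A) (x : M) :
    ∀ y p : M, y ∈ A → p ∈ h.Pm → (op y p ∈ feF h.Pm h.Lm A x ↔ fe Q x.1 y.1 p.1) := by
  have hwf : WellFounded fun y x : M => y ∈ ZU.dm x :=
    Subrelation.wf (r := InvImage dm (fun x : M => x.1)) (fun {a b} h => mdm_iff.1 h)
      (InvImage.wf _ dm_wf)
  induction x using hwf.induction with
  | _ x IH =>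
    intro y p hy hp
    have hF : DF fun v : ℕ → M => feF h.Pm h.Lm A (v 0) :=
      df_feF (df_const _) (df_const _) (df_const _) (df_var 0)
    have hC : Dfn fun v : ℕ → M =>
        feC h.Lm x (lam (ZU.dm x) (feF h.Pm h.Lm A)) (fst (v 0)) (snd (v 0)) := by
      simp (maxDischargeDepth := 99)
    rw [feF_eq indP_dm, feG, ZU.mem_sep hC, op_mem_prd, fst_op, snd_op, fe_iff]
    rw [and_iff_right ⟨hy, hp⟩]
    have hap : ∀ z : M, z ∈ ZU.dm x → ap (lam (ZU.dm x) (feF h.Pm h.Lm A)) z =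
        feF h.Pm h.Lm A z := fun z hz => ap_lam hF hz
    unfold feC
    refine and_congr (feM_aux h (S := fun z w q => fe Q z w q) fun z w q hz hw hq => ?_)
      (feM_aux h (R := fun w z q => op w q ∈ ap (lam (ZU.dm x) (feF h.Pm h.Lm A)) z)
        (S := fun w z q => fe Q z w q) fun w z q hw hz hq => ?_)
    · rw [hap z hz]
      exact IH z hz w q (hA y hy w hw) hq
    · rw [hap z hz]
      exact IH z hz w q (hA y hy w hw) hq

theorem feM_iff (h : IsPo M Q) {x y p : M} : feM h.Pm h.Lm x y p ↔ fe Q x.1 y.1 p.1 := by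
  have hd : DF fun v : ℕ → M => ZU.dm (v 0) := df_dm (df_var 0)
  unfold feM
  by_cases hp : p ∈ h.Pm
  · rw [← op_mem_feF h (cl_clo hd indP_dm y) x y p (self_mem_clo hd indP_dm y) hp]
    exact ⟨fun h => h hp, fun h _ => h⟩
  · refine ⟨fun _ => ?_, fun _ h => absurd h hp⟩
    rw [fe_iff]
    exact ⟨fun z r _ q hq => absurd (h.right_mem hq) hp,
      fun z r _ q hq => absurd (h.right_mem hq) hp⟩

theorem fmM_iff (h : IsPo M Q) {x y p : M} : fmM h.Pm h.Lm x y p ↔ fm Q x.1 y.1 p.1 := by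
  unfold fmM fm
  constructor
  · intro h1 q hq
    obtain ⟨q', h2, w, s, h3, h4, h5⟩ := h1 ⟨q, h.in_M (h.left_mem hq)⟩ (h.leM.2 hq)
    exact ⟨q'.1, h.leM.1 h2, w.1, s.1, mop_mem.1 h3, h.leM.1 h4, (feM_iff h).1 h5⟩
  · intro h1 q hq
    obtain ⟨q', h2, w, s, h3, h4, h5⟩ := h1 q.1 (h.leM.1 hq)
    obtain ⟨w', s', rfl, rfl, hw'⟩ := mpair_ex h3
    exact ⟨⟨q', h.in_M (h.left_mem h2)⟩, h.leM.2 h2, w', s', hw', h.leM.2 h4,
      (feM_iff h).2 h5⟩

theorem ffM_iff (h : IsPo M Q) (φ : Fml) : ∀ (v : ℕ → M) (p : M),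
    ffM h.Pm h.Lm φ v p ↔ ff M Q φ v p.1 := by
  induction φ with
  | mem i j => exact fun v p => fmM_iff h
  | eq i j => exact fun v p => feM_iff h
  | bot => exact fun v p => Iff.rfl
  | imp φ ψ h1 h2 =>
    intro v p
    constructor
    · intro h3 q hq h4
      exact (h2 v ⟨q, h.in_M (h.left_mem hq)⟩).1 (h3 _ (h.leM.2 hq) ((h1 v _).2 h4))
    · intro h3 q hq h4
      exact (h2 v q).2 (h3 q.1 (h.leM.1 hq) ((h1 v q).1 h4))
  | all φ ih =>
    intro v p
    exact forall_congr' fun x => ih (cns x v) p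

/-- **Definability of the forcing relation for equality.** -/
theorem dfn_fe (h : IsPo M Q) {x y p : (ℕ → M) → M} (hx : DF x) (hy : DF y) (hp : DF p) :
    Dfn fun v => fe Q (x v).1 (y v).1 (p v).1 :=
  (dfn_feM (df_const h.Pm) (df_const h.Lm) hx hy hp).congr fun _ => (feM_iff h).symm

/-- **Definability of the forcing relation for membership.** -/
theorem dfn_fm (h : IsPo M Q) {x y p : (ℕ → M) → M} (hx : DF x) (hy : DF y) (hp : DF p) :
    Dfn fun v => fm Q (x v).1 (y v).1 (p v).1 :=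
  (dfn_fmM (df_const h.Pm) (df_const h.Lm) hx hy hp).congr fun _ => (fmM_iff h).symm

/-- **Definability of the forcing relation.** -/
theorem dfn_ff (h : IsPo M Q) (φ : Fml) {w : ℕ → (ℕ → M) → M} {p : (ℕ → M) → M}
    (hw : ∀ i, DF (w i)) (hp : DF p) : Dfn fun v => ff M Q φ (fun i => w i v) (p v).1 :=
  (dfn_ffM h.Pm h.Lm φ w p hw hp).congr fun _ => (ffM_iff h φ _ _).symm

end CPY
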