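import Pool.Agent.CPY.B.Fe

/-! # Forcing over a countable transitive model: existence of generic filters

(problem MP_ba5606_gt, project CPY, block (B)) -/

namespace CPY

open STP

variable {M : Set ZFSet.{0}} {Q : Po}

/-- Rasiowa-Sikorski: every condition is in a generic filter over a countable model. -/
theorem gen_exists (hM : M.Countable) (h : IsPo M Q) {p : ZFSet.{0}} (hp : p ∈ Q.P) :
    ∃ G, Gen M Q G ∧ p ∈ G := by
  classical
  let S : Set ZFSet.{0} := {D | D ∈ M ∧ ∀ p ∈ Q.P, ∃ q ∈ D, Q.le q p}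
  have hS : S.Countable := hM.mono fun D hD => hD.1
  have hne : S.Nonempty := ⟨Q.P, h.P_mem, fun p hp => ⟨p, hp, h.refl p hp⟩⟩
  obtain ⟨f, hf⟩ := hS.exists_eq_range hne
  have hfS : ∀ n, f n ∈ S := fun n => hf ▸ ⟨n, rfl⟩
  -- the descending sequence
  have step : ∀ (n : ℕ) (a : {a // a ∈ Q.P}), ∃ b : {b // b ∈ Q.P}, Q.le b.1 a.1 ∧ b.1 ∈ f n := by
    rintro n ⟨a, ha⟩
    obtain ⟨q, h1, h2⟩ := (hfS n).2 a ha
    exact ⟨⟨q, h.left_mem h2⟩, h2, h1⟩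
  choose g hg1 hg2 using step
  let s : ℕ → {a // a ∈ Q.P} := fun n => Nat.rec ⟨p, hp⟩ (fun n a => g n a) n
  have s0 : s 0 = ⟨p, hp⟩ := rfl
  have s1 : ∀ n, s (n + 1) = g n (s n) := fun n => rfl
  have hle : ∀ n k, Q.le (s (n + k)).1 (s n).1 := by
    intro n k
    induction k with
    | zero => exact h.refl _ (s n).2
    | succ k ih =>
      have : Q.le (s (n + (k + 1))).1 (s (n + k)).1 := by
        rw [← add_assoc, s1]
        exact hg1 _ _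
      exact h.trans _ _ _ this ih
  have hmono : ∀ m n, m ≤ n → Q.le (s n).1 (s m).1 := by
    intro m n hmn
    obtain ⟨k, rfl⟩ := Nat.exists_eq_add_of_le hmn
    exact hle m k
  refine ⟨{q | ∃ n, Q.le (s n).1 q}, ⟨?_, ?_, ?_, ?_, ?_⟩, ⟨0, h.refl _ hp⟩⟩
  · rintro q ⟨n, hn⟩
    exact h.right_mem hn
  · exact ⟨0, h.le_one _ hp⟩
  · rintro q ⟨n, hn⟩ r hr
    exact ⟨n, h.trans _ _ _ hn hr⟩
  · rintro q ⟨n, hn⟩ r ⟨m, hm⟩
    exact ⟨(s (max n m)).1, ⟨max n m, h.refl _ (s _).2⟩,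
      h.trans _ _ _ (hmono _ _ (le_max_left n m)) hn,
      h.trans _ _ _ (hmono _ _ (le_max_right n m)) hm⟩
  · intro D hD hd
    have : D ∈ Set.range f := hf ▸ ⟨hD, hd⟩
    obtain ⟨n, rfl⟩ := this
    exact ⟨(s (n + 1)).1, ⟨n + 1, h.refl _ (s (n + 1)).2⟩, by rw [s1]; exact hg2 _ _⟩

/-- members of a generic filter are compatible in the filter, three conditions -/
theorem Gen.dir3 {G : Set ZFSet.{0}} (h : IsPo M Q) (hG : Gen M Q G) {p q r : ZFSet.{0}}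
    (hp : p ∈ G) (hq : q ∈ G) (hr : r ∈ G) : ∃ s ∈ G, Q.le s p ∧ Q.le s q ∧ Q.le s r := by
  obtain ⟨a, ha, h1, h2⟩ := hG.dir p hp q hq
  obtain ⟨b, hb, h3, h4⟩ := hG.dir a ha r hr
  exact ⟨b, hb, h.trans _ _ _ h3 h1, h.trans _ _ _ h3 h2, h4⟩

theorem Ext_trans {G : Set ZFSet.{0}} (hM : ∀ x ∈ M, ∀ y ∈ x, y ∈ M) :
    ∀ x ∈ Ext M G, ∀ y ∈ x, y ∈ Ext M G := by
  rintro x ⟨a, ha, rfl⟩ y hy
  obtain ⟨b, p, hb, _, rfl⟩ := mem_val.1 hy
  obtain ⟨s, h1, h2, h3⟩ := mem_trans_pair_left hb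
  exact ⟨b, hM _ (hM _ (hM _ ha _ h3) _ h2) _ h1, rfl⟩

theorem Ext_cnt {G : Set ZFSet.{0}} (hM : M.Countable) : (Ext M G).Countable := by
  have : Ext M G = val G '' M := by
    ext z
    simp [Ext]
  rw [this]
  exact hM.image _

theorem val_chk {G : Set ZFSet.{0}} (hG : Q.one ∈ G) (x : ZFSet.{0}) : val G (chk Q x) = x := by
  induction x using ZFSet.inductionOn with
  | _ x IH =>
    ext z
    rw [mem_val]
    constructor
    · rintro ⟨y, p, h1, h2, rfl⟩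
      obtain ⟨w, hw, he⟩ := mem_chk.1 h1
      rw [ZFSet.pair_inj] at he
      rw [he.1, IH w hw]
      exact hw
    · intro hz
      exact ⟨chk Q z, Q.one, mem_chk.2 ⟨z, hz, rfl⟩, hG, (IH z hz).symm⟩

theorem mem_gset {G : Set ZFSet.{0}} (hG : Gen M Q G) {p : ZFSet.{0}} : p ∈ gset Q G ↔ p ∈ G := by
  rw [gset, ZFSet.mem_sep]
  exact ⟨fun h => h.2, fun h => ⟨hG.sub p h, h⟩⟩

theorem val_gnm {G : Set ZFSet.{0}} (hG : Gen M Q G) : val G (gnm Q) = gset Q G := by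
  ext z
  rw [mem_val, mem_gset hG]
  constructor
  · rintro ⟨y, p, h1, h2, rfl⟩
    obtain ⟨w, hw, he⟩ := mem_gnm.1 h1
    rw [ZFSet.pair_inj] at he
    rw [he.1, val_chk hG.one, ← he.2]
    exact h2
  · intro hz
    exact ⟨chk Q z, z, mem_gnm.2 ⟨z, hG.sub z hz, rfl⟩, hz, (val_chk hG.one z).symm⟩

/-- the rank of a value is at most the rank of the name -/
theorem rank_val (G : Set ZFSet.{0}) (x : ZFSet.{0}) : (val G x).rank ≤ x.rank := by
  induction x using dm_wf.induction with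
  | _ x IH =>
    rw [ZFSet.rank_le_iff]
    intro z hz
    obtain ⟨y, p, h1, _, rfl⟩ := mem_val.1 hz
    exact (IH y ⟨p, h1⟩).trans_lt (dm_rank ⟨p, h1⟩)

end CPY
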