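import Pool.Agent.CPY.B.ExC

/-! # Forcing over a countable transitive model: summary

(problem MP_ba5606_gt, project CPY, block (B2); no sorry in this file)

The results of the block in the form with the hypotheses `Mod M`, `IsPo M Q`, `Gen M Q G` only. The
definability of the forcing relation over `M` is in `FeD.lean` (`dfn_fe`, `dfn_fm`, `dfn_ff`), the
names `nmS`, `opN` are in `Nms.lean`, collection is `coll` in `Coll.lean`. -/

namespace CPY

open STP ZU

variable {M : Set ZFSet.{0}} {Q : Po} {G : Set ZFSet.{0}}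

theorem Mod.fd (hM : Mod M) (h : IsPo M Q) : FD M Q := by
  have := hM.tm
  exact CPY.fd h

theorem Mod.chk_mem (hM : Mod M) (h : IsPo M Q) {x : ZFSet.{0}} (hx : x ∈ M) : chk Q x ∈ M := by
  have := hM.tm
  exact CPY.chk_mem h hx

theorem Mod.gnm_mem (hM : Mod M) (h : IsPo M Q) : gnm Q ∈ M := by
  have := hM.tm
  exact CPY.gnm_mem h

theorem Mod.rank_mem (hM : Mod M) {x : ZFSet.{0}} (hx : x ∈ M) : x.rank.toZFSet ∈ M := by
  have := hM.tm
  exact CPY.rank_mem hx

/-- `M ⊆ M[G]` -/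
theorem Mod.sub_ext (hM : Mod M) (h : IsPo M Q) (hG : Gen M Q G) : M ⊆ Ext M G :=
  CPY.sub_ext hG fun _ hx => hM.chk_mem h hx

/-- `G ∈ M[G]` -/
theorem Mod.gset_mem (hM : Mod M) (h : IsPo M Q) (hG : Gen M Q G) : gset Q G ∈ Ext M G :=
  CPY.gset_ext hG (hM.gnm_mem h)

/-- `M[G]` has the same ordinals as `M` -/
theorem Mod.ord (hM : Mod M) {o : ZFSet.{0}} (ho : o ∈ Ext M G) (h : o.IsOrdinal) : o ∈ M :=
  CPY.ord_ext hM.trans (fun _ hx => hM.rank_mem hx) ho h

/-- **The forcing theorem**, truth in the generic extension -/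
theorem Mod.truth (hM : Mod M) (h : IsPo M Q) (hG : Gen M Q G) (φ : Fml) (v : ℕ → M) :
    sat (Em (Ext M G)) φ (vals G v) ↔ ∃ p ∈ G, ff M Q φ v p :=
  CPY.truth hM.trans h (hM.fd h) hG φ v

/-- **The forcing theorem**, forcing by truth in all generic extensions -/
theorem Mod.ff_iff (hM : Mod M) (hc : M.Countable) (h : IsPo M Q) (φ : Fml) (v : ℕ → M)
    {p : ZFSet.{0}} (hp : p ∈ Q.P) :
    ff M Q φ v p ↔ ∀ G, Gen M Q G → p ∈ G → sat (Em (Ext M G)) φ (vals G v) :=
  CPY.ff_iff hM.trans hc h (hM.fd h) φ v hp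

/-- a generic filter meets every set of `M` which is dense below one of its members -/
theorem Mod.below (hM : Mod M) (h : IsPo M Q) (hG : Gen M Q G) {A : ZFSet.{0}} (hA : A ∈ M)
    {p : ZFSet.{0}} (hp : p ∈ G) (hd : ∀ q, Q.le q p → ∃ r ∈ A, Q.le r q) :
    ∃ r ∈ G, r ∈ A :=
  hG.below h (hM.fd h) hA hp hd

/-- **The generic model theorem** -/
theorem Mod.ext (hM : Mod M) (h : IsPo M Q) (hG : Gen M Q G) : Mod (Ext M G) := ext_mod hM h hG

end CPY
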