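import Pool.Agent.ZU.Trans
import Pool.Agent.CPY.B.Ord

/-! # Transitive models as structures `ZM`

(problem MP_ba5606_gt, project CPY, block (B2); no sorry in this file)

`M : Set ZFSet.{0}` is a transitive model of ZF (class `TM M` of `ZU/Trans.lean`). This file compares the
operations of `ZU` on `↥M` with the operations on `ZFSet`. -/

namespace CPY

open STP ZU

theorem Mod.tm {M : Set ZFSet.{0}} (h : Mod M) : TM M := ⟨h.trans, zfa_of_zfc h.zfc⟩

variable {M : Set ZFSet.{0}} [tM : TM M]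

theorem mv_iff {x y : M} : x ∈ y ↔ x.1 ∈ y.1 := Iff.rfl

/-- the members of an element of `M` -/
theorem mv_ex {x : ZFSet.{0}} {y : M} (h : x ∈ y.1) : ∃ z : M, z.1 = x ∧ z ∈ y :=
  ⟨⟨x, tM.tr _ y.2 _ h⟩, rfl, h⟩

/-- equality of the value with a set, by the members in `M` -/
theorem val_ext {x : M} {a : ZFSet.{0}} (h1 : ∀ z : M, z ∈ x → z.1 ∈ a)
    (h2 : ∀ z ∈ a, ∃ z' : M, z'.1 = z ∧ z' ∈ x) : x.1 = a := by
  ext z
  constructor
  · intro hz
    obtain ⟨z', rfl, h⟩ := mv_ex hz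
    exact h1 z' h
  · intro hz
    obtain ⟨z', rfl, h⟩ := h2 z hz
    exact h

theorem msub_iff {x y : M} : x ⊆ y ↔ x.1 ⊆ y.1 := by
  constructor
  · intro h z hz
    obtain ⟨z', rfl, h'⟩ := mv_ex hz
    exact h z' h'
  · intro h z hz
    exact h hz

theorem mup_val (x y : M) : (up x y).1 = {x.1, y.1} := by
  refine val_ext (fun z hz => ?_) fun z hz => ?_
  · rcases mem_up.1 hz with rfl | rfl <;> simp
  · simp only [ZFSet.mem_pair] at hz
    rcases hz with rfl | rfl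
    · exact ⟨x, rfl, by simp⟩
    · exact ⟨y, rfl, by simp⟩

theorem mop_val (x y : M) : (op x y).1 = ZFSet.pair x.1 y.1 := by
  unfold op
  rw [mup_val, mup_val, mup_val, ZFSet.pair]
  simp

theorem mop_mem {x y z : M} : op x y ∈ z ↔ ZFSet.pair x.1 y.1 ∈ z.1 := by
  rw [mv_iff, mop_val]

theorem pair_mem {x y : ZFSet.{0}} (hx : x ∈ M) (hy : y ∈ M) : ZFSet.pair x y ∈ M := by
  have h := (op (⟨x, hx⟩ : M) ⟨y, hy⟩).2
  rwa [mop_val] at h

/-- the components of an ordered pair in an element of `M` -/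
theorem mpair_ex {x y : ZFSet.{0}} {z : M} (h : ZFSet.pair x y ∈ z.1) :
    ∃ a b : M, a.1 = x ∧ b.1 = y ∧ op a b ∈ z := by
  obtain ⟨p, hp, h1⟩ := mv_ex h
  have hx : x ∈ M := by
    obtain ⟨s, h2, h3, h4⟩ := mem_trans_pair_left h
    exact tM.tr _ (tM.tr _ (tM.tr _ z.2 _ h4) _ h3) _ h2
  have hy : y ∈ M := by
    have h2 : y ∈ ({x, y} : ZFSet.{0}) := by simp
    have h3 : ({x, y} : ZFSet.{0}) ∈ ZFSet.pair x y := by simp [ZFSet.pair]
    exact tM.tr _ (tM.tr _ (tM.tr _ z.2 _ h) _ h3) _ h2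
  exact ⟨⟨x, hx⟩, ⟨y, hy⟩, rfl, rfl, mop_mem.2 h⟩

theorem em_val : ((∅ : M)).1 = ∅ := by
  refine val_ext (fun z hz => absurd hz (not_mem_em z)) fun z hz => absurd hz (ZFSet.notMem_empty z)

theorem uni_val (x : M) : (uni x).1 = ZFSet.sUnion x.1 := by
  refine val_ext (fun z hz => ?_) fun z hz => ?_
  · obtain ⟨w, hw, hz⟩ := mem_uni.1 hz
    exact ZFSet.mem_sUnion.2 ⟨w.1, hw, hz⟩
  · obtain ⟨w, hw, hz⟩ := ZFSet.mem_sUnion.1 hz
    obtain ⟨w', rfl, hw'⟩ := mv_ex hw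
    obtain ⟨z', rfl, hz'⟩ := mv_ex hz
    exact ⟨z', rfl, mem_uni.2 ⟨w', hw', hz'⟩⟩

theorem mdm_iff {x y : M} : y ∈ ZU.dm x ↔ dm y.1 x.1 := by
  rw [mem_dm]
  constructor
  · rintro ⟨p, hp⟩
    exact ⟨p.1, mop_mem.1 hp⟩
  · rintro ⟨p, hp⟩
    obtain ⟨a, b, h1, rfl, h⟩ := mpair_ex hp
    obtain rfl := Subtype.ext h1
    exact ⟨b, h⟩

/-- induction along `dm` -/
theorem indP_dm : IndP (fun x : M => ZU.dm x) := by
  refine indP_of_wf ?_
  refine Subrelation.wf (r := InvImage dm (fun x : M => x.1)) (fun {a b} h => ?_)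
    (InvImage.wf _ dm_wf)
  exact mdm_iff.1 h

/-- subsets given by definable predicates are in `M` -/
theorem sep_mem {x : ZFSet.{0}} (hx : x ∈ M) {R : ZFSet.{0} → Prop}
    (hR : Dfn fun v : ℕ → M => R (v 0).1) : x.sep R ∈ M := by
  have h : (sep (⟨x, hx⟩ : M) fun z => R z.1).1 = x.sep R := by
    refine val_ext (fun z hz => ?_) fun z hz => ?_
    · rw [ZU.mem_sep (P := fun z : M => R z.1) hR] at hz
      exact ZFSet.mem_sep.2 hz
    · rw [ZFSet.mem_sep] at hz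
      refine ⟨⟨z, tM.tr _ hx _ hz.1⟩, rfl, ?_⟩
      rw [ZU.mem_sep (P := fun z : M => R z.1) hR]
      exact hz
  rw [← h]
  exact (sep (⟨x, hx⟩ : M) fun z => R z.1).2

end CPY
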