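import Pool.Agent.CPY.B.Pn
import Pool.Agent.ZU.Trans
import Pool.Agent.ZU.Ctb

/-! # Forcing over a countable transitive model: the countable chain condition

(problem MP_ba5606_gt, project CPY, block (B3))

`Ccc M Q`: every set `A ∈ M` of conditions has a countable (in `M`) subset `B ∈ M` such that every
member of `A` is compatible with a member of `B`. `nice`: names of subsets of a set of `M` by countable
sets of conditions. `om1_ext`: the first uncountable ordinal is preserved. -/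

namespace CPY

open STP ZU

/-- the countable chain condition in `M` -/
def Ccc (M : Set ZFSet.{0}) [TM M] (Q : Po) : Prop :=
  ∀ A : M, A.1 ⊆ Q.P → ∃ B : M, B ⊆ A ∧ Ctb B ∧
    ∀ a, a ∈ A → ∃ b, b ∈ B ∧ ∃ r, Q.le r a.1 ∧ Q.le r b.1

/-- Definability of the forcing relation for membership, and the canonical names. -/
structure DFo (M : Set ZFSet.{0}) [TM M] (Q : Po) : Prop where
  fd : FD M Q
  fm : Dfn (N := M) fun v => fm Q (v 0).1 (v 1).1 (v 2).1
  ck : ∀ x ∈ M, chk Q x ∈ M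
  ckd : DF (N := M) fun v => ⟨chk Q (v 0).1, ck _ (v 0).2⟩

section

variable {M : Set ZFSet.{0}} [TM M] {Q : Po} (h : IsPo M Q) (hD : DFo M Q)

include h in
theorem IsPo.mem_M {p : ZFSet.{0}} (hp : p ∈ Q.P) : p ∈ M := TM.tr _ h.P_mem _ hp

/-- the set of conditions as an element of `M` -/
def IsPo.P' (h : IsPo M Q) : M := ⟨Q.P, h.P_mem⟩

/-- the order as an element of `M` -/
def IsPo.L' (h : IsPo M Q) : M := ⟨Q.L, h.L_mem⟩

/-- the greatest condition as an element of `M` -/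
def IsPo.o' (h : IsPo M Q) : M := ⟨Q.one, h.mem_M h.one_mem⟩

theorem IsPo.le_iff (h : IsPo M Q) {a b : M} : op a b ∈ h.L' ↔ Q.le a.1 b.1 := op_mem_val

/-- canonical names as elements of `M` -/
noncomputable def DFo.ck' (hD : DFo M Q) (x : M) : M := ⟨chk Q x.1, hD.ck _ x.2⟩

theorem DFo.df_ck (hD : DFo M Q) {s : (ℕ → M) → M} (hs : DF s) : DF fun v => hD.ck' (s v) :=
  df1 (F := hD.ck') hD.ckd hs

theorem DFo.dfn_fm (hD : DFo M Q) {x y p : (ℕ → M) → M} (hx : DF x) (hy : DF y) (hp : DF p) :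
    Dfn fun v => CPY.fm Q (x v).1 (y v).1 (p v).1 :=
  dfn3 (P := fun x y p : M => CPY.fm Q x.1 y.1 p.1) hD.fm hx hy hp

/-- the name of an ordered pair as an element of `M` -/
noncomputable def IsPo.on (h : IsPo M Q) (a b : M) : M :=
  up (op (up (op a h.o') (op a h.o')) h.o') (op (up (op a h.o') (op b h.o')) h.o')

theorem IsPo.on_val (h : IsPo M Q) (a b : M) : (h.on a b).1 = onm Q a.1 b.1 := by
  unfold IsPo.on onm unm
  rw [val_up, val_op, val_op, val_up, val_up, val_op, val_op]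
  rfl

theorem IsPo.df_on (h : IsPo M Q) {s t : (ℕ → M) → M} (hs : DF s) (ht : DF t) :
    DF fun v => h.on (s v) (t v) := by
  have h1 : DF fun v => op (s v) h.o' := df_op hs (df_const _)
  have h2 : DF fun v => op (t v) h.o' := df_op ht (df_const _)
  exact df_up (df_op (df_up h1 h1) (df_const _)) (df_op (df_up h1 h2) (df_const _))

/-- **Genericity for countable predense subsets.** -/
theorem Gen.pred {G : Set ZFSet.{0}} (hG : Gen M Q G) (h : IsPo M Q) (hD : DFo M Q) {A B : M}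
    (hA : ∀ p : M, p ∈ A → ∀ q, Q.le q p.1 → q ∈ A.1)
    (hAB : ∀ a, a ∈ A → ∃ b, b ∈ B ∧ ∃ r, Q.le r a.1 ∧ Q.le r b.1) (hAG : ∃ p ∈ G, p ∈ A.1) :
    ∃ p ∈ G, p ∈ B.1 := by
  have hd : Dfn fun v : ℕ → M => ∃ b, b ∈ B ∧ op (v 0) b ∈ h.L' :=
    dfn_ex (dfn_and (dfn_mem (df_var 0) (df_const _))
      (dfn_mem (df_op (df_var 1) (df_var 0)) (df_const _)))
  refine hG.predense h hD.fd (A := A.1) (B' := (sep h.P' fun s => ∃ b, b ∈ B ∧ op s b ∈ h.L').1)
    (Subtype.property _) ?_ ?_ ?_ hAG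
  · intro s
    constructor
    · intro hs
      obtain ⟨s, hs', rfl⟩ := ex_val hs
      obtain ⟨h1, b, hb, h2⟩ := (mem_sep hd).1 hs'
      exact ⟨h1, b.1, hb, h.le_iff.1 h2⟩
    · rintro ⟨h1, b, hb', h2⟩
      obtain ⟨b, hb, rfl⟩ := ex_val hb'
      have : (⟨s, h.mem_M h1⟩ : M) ∈ sep h.P' fun s => ∃ b, b ∈ B ∧ op s b ∈ h.L' :=
        (mem_sep hd).2 ⟨h1, b, hb, h.le_iff.2 h2⟩
      exact this
  · intro p hp q hq
    obtain ⟨p, hp', rfl⟩ := ex_val hp
    exact hA p hp' q hq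
  · intro a ha
    obtain ⟨a, ha', rfl⟩ := ex_val ha
    obtain ⟨b, hb, h1⟩ := hAB a ha'
    exact ⟨b.1, hb, h1⟩

/-- **Nice names.** For every name `x` and every set `I` of `M` there is a definable function `F` of `M`
whose values are countable sets of conditions such that in all generic extensions `i ∈ I` is an element
of the value of `x` if and only if the filter meets `F i`. -/
theorem nice (h : IsPo M Q) (hD : DFo M Q) (hW : WO M) (hcc : Ccc M Q) (x I : M) :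
    ∃ F : M → M, (DF fun v => F (v 0)) ∧ ∀ i, i ∈ I → F i ⊆ h.P' ∧ Ctb (F i) ∧
      ∀ G, Gen M Q G → (i.1 ∈ val G x.1 ↔ ∃ b ∈ G, b ∈ (F i).1) := by
  let D : M → M := fun i => sep h.P' fun p => fm Q (hD.ck' i).1 x.1 p.1
  have hd : ∀ i : M, Dfn fun v : ℕ → M => fm Q (hD.ck' i).1 x.1 (v 0).1 := fun i =>
    hD.dfn_fm (df_const _) (df_const _) (df_var 0)
  have hDd : DF fun v => D (v 0) :=
    df_sep (df_const _) (hD.dfn_fm (hD.df_ck (df_var 1)) (df_const _) (df_var 0))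
  obtain ⟨F, hF, h1⟩ := choice hW (A := I) (R := fun i B => B ⊆ D i ∧ Ctb B ∧
    ∀ a, a ∈ D i → ∃ b, b ∈ B ∧ ∃ r, op r a ∈ h.L' ∧ op r b ∈ h.L') (by
      refine dfn_and (dfn_sub (df_var 1) hDd) (dfn_and (dfn_ctb (df_var 1)) (dfn_all
        (dfn_imp (dfn_mem (df_var 0) (df1 hDd (df_var 1))) (dfn_ex (dfn_and
          (dfn_mem (df_var 0) (df_var 3)) (dfn_ex (dfn_and (dfn_mem (df_op (df_var 0) (df_var 2))
            (df_const _)) (dfn_mem (df_op (df_var 0) (df_var 1)) (df_const _)))))))))) (by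
      intro i _
      obtain ⟨B, hB1, hB2, hB3⟩ := hcc (D i) (fun z hz => by
        obtain ⟨z, hz', rfl⟩ := ex_val hz
        exact ((mem_sep (hd i)).1 hz').1)
      refine ⟨B, hB1, hB2, fun a ha => ?_⟩
      obtain ⟨b, hb, r, h2, h3⟩ := hB3 a ha
      exact ⟨b, hb, ⟨r, h.mem_M (h.left_mem h2)⟩, h.le_iff.2 h2, h.le_iff.2 h3⟩)
  refine ⟨F, hF, fun i hi => ?_⟩
  obtain ⟨h2, h3, h4⟩ := h1 i hi
  refine ⟨fun z hz => ((mem_sep (hd i)).1 (h2 z hz)).1, h3, fun G hG => ?_⟩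
  have hi' : i.1 ∈ val G x.1 ↔ ∃ p ∈ G, fm Q (hD.ck' i).1 x.1 p := by
    rw [← truth_mem TM.tr h hD.fd hG (hD.ck' i).2 x.2]
    have : val G (hD.ck' i).1 = i.1 := val_chk hG.one i.1
    rw [this]
  rw [hi']
  constructor
  · rintro ⟨p, hp, h5⟩
    refine hG.pred h hD (A := D i) (B := F i) ?_ ?_ ?_
    · intro p hp q hq
      have h6 := (mem_sep (hd i)).1 hp
      have : (⟨q, h.mem_M (h.left_mem hq)⟩ : M) ∈ D i :=
        (mem_sep (hd i)).2 ⟨h.left_mem hq, fm_mono h h6.2 hq⟩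
      exact this
    · intro a ha
      obtain ⟨b, hb, r, h6, h7⟩ := h4 a ha
      exact ⟨b, hb, r.1, h.le_iff.1 h6, h.le_iff.1 h7⟩
    · have : (⟨p, h.mem_M (hG.sub p hp)⟩ : M) ∈ D i := (mem_sep (hd i)).2 ⟨hG.sub p hp, h5⟩
      exact ⟨p, hp, this⟩
  · rintro ⟨b, hb, h5⟩
    obtain ⟨b, hb1, rfl⟩ := ex_val h5
    exact ⟨b.1, hb, ((mem_sep (hd i)).1 (h2 b hb1)).2⟩

/-- **Approximation.** For every name `x` and all sets `A`, `X` of `M` there is a definable function `F`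
of `M` with countable values `F a ⊆ X` such that in all generic extensions in which the value of `x` is
a function, all values of this function at `a ∈ A` which are in `X` are elements of `F a`. -/
theorem approx (h : IsPo M Q) (hD : DFo M Q) (hW : WO M) (hcc : Ccc M Q) (x A X : M) :
    ∃ F : M → M, (DF fun v => F (v 0)) ∧ ∀ a, a ∈ A → F a ⊆ X ∧ Ctb (F a) ∧
      ∀ G, Gen M Q G → (∀ b c, b ∈ X.1 → c ∈ X.1 → ZFSet.pair a.1 b ∈ val G x.1 →
        ZFSet.pair a.1 c ∈ val G x.1 → b = c) →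
        ∀ b : M, b ∈ X → ZFSet.pair a.1 b.1 ∈ val G x.1 → b ∈ F a := by
  -- `f a b p`: the condition `p` forces that `(a, b)` is an element of `x`
  let f : M → M → M → Prop := fun a b p => fm Q (h.on (hD.ck' a) (hD.ck' b)).1 x.1 p.1
  have hf : Dfn fun v => f (v 0) (v 1) (v 2) :=
    hD.dfn_fm (h.df_on (hD.df_ck (df_var 0)) (hD.df_ck (df_var 1))) (df_const _) (df_var 2)
  have hf3 : ∀ {s t r : (ℕ → M) → M}, DF s → DF t → DF r → Dfn fun v => f (s v) (t v) (r v) :=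
    fun hs ht hr => dfn3 hf hs ht hr
  have htr : ∀ G, Gen M Q G → ∀ a b : M,
      (ZFSet.pair a.1 b.1 ∈ val G x.1 ↔ ∃ p ∈ G, fm Q (h.on (hD.ck' a) (hD.ck' b)).1 x.1 p) := by
    intro G hG a b
    rw [← truth_mem TM.tr h hD.fd hG (h.on (hD.ck' a) (hD.ck' b)).2 x.2, h.on_val, val_onm hG.one]
    have e : ∀ c : M, val G (hD.ck' c).1 = c.1 := fun c => val_chk hG.one c.1
    rw [e, e]
  -- the conditions which force some value at `a`
  let D : M → M := fun a => sep h.P' fun p => ∃ b, b ∈ X ∧ f a b p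
  have hd : ∀ a : M, Dfn fun v : ℕ → M => ∃ b, b ∈ X ∧ f a b (v 0) := fun a =>
    dfn_ex (dfn_and (dfn_mem (df_var 0) (df_const _)) (hf3 (df_const _) (df_var 0) (df_var 1)))
  have hDd : DF fun v => D (v 0) := df_sep (df_const _) (dfn_ex (dfn_and
    (dfn_mem (df_var 0) (df_const _)) (hf3 (df_var 2) (df_var 0) (df_var 1))))
  obtain ⟨B, hB, h1⟩ := choice hW (A := A) (R := fun i B => B ⊆ D i ∧ Ctb B ∧
    ∀ a, a ∈ D i → ∃ b, b ∈ B ∧ ∃ r, op r a ∈ h.L' ∧ op r b ∈ h.L') (by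
      refine dfn_and (dfn_sub (df_var 1) hDd) (dfn_and (dfn_ctb (df_var 1)) (dfn_all
        (dfn_imp (dfn_mem (df_var 0) (df1 hDd (df_var 1))) (dfn_ex (dfn_and
          (dfn_mem (df_var 0) (df_var 3)) (dfn_ex (dfn_and (dfn_mem (df_op (df_var 0) (df_var 2))
            (df_const _)) (dfn_mem (df_op (df_var 0) (df_var 1)) (df_const _)))))))))) (by
      intro i _
      obtain ⟨B, hB1, hB2, hB3⟩ := hcc (D i) (fun z hz => by
        obtain ⟨z, hz', rfl⟩ := ex_val hz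
        exact ((mem_sep (hd i)).1 hz').1)
      refine ⟨B, hB1, hB2, fun a ha => ?_⟩
      obtain ⟨b, hb, r, h2, h3⟩ := hB3 a ha
      exact ⟨b, hb, ⟨r, h.mem_M (h.left_mem h2)⟩, h.le_iff.2 h2, h.le_iff.2 h3⟩)
  -- the value forced by a condition
  obtain ⟨g, hg, h2⟩ := choice hW (A := bU A fun a => img (D a) (op a))
    (R := fun z b => b ∈ X ∧ f (fst z) b (snd z)) (by
      exact dfn_and (dfn_mem (df_var 1) (df_const _)) (hf3 (df_fst (df_var 0)) (df_var 1)
        (df_snd (df_var 0)))) (by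
      intro z hz
      rw [mem_bU (df_img hDd (df_op (df_var 1) (df_var 0)))] at hz
      obtain ⟨a, _, hz⟩ := hz
      rw [mem_img (df_op (df_const _) (df_var 0))] at hz
      obtain ⟨p, hp, rfl⟩ := hz
      obtain ⟨_, b, hb, h3⟩ := (mem_sep (hd a)).1 hp
      exact ⟨b, hb, by rw [fst_op, snd_op]; exact h3⟩)
  have h2' : ∀ a, a ∈ A → ∀ p, p ∈ D a → g (op a p) ∈ X ∧ f a (g (op a p)) p := by
    intro a ha p hp
    have := h2 (op a p) (by
      rw [mem_bU (df_img hDd (df_op (df_var 1) (df_var 0)))]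
      refine ⟨a, ha, ?_⟩
      rw [mem_img (df_op (df_const _) (df_var 0))]
      exact ⟨p, hp, rfl⟩)
    rwa [fst_op, snd_op] at this
  have hga : ∀ a : M, DF fun v : ℕ → M => g (op a (v 0)) := fun a =>
    df1 hg (df_op (df_const a) (df_var 0))
  refine ⟨fun a => img (B a) fun p => g (op a p),
    df_img hB (df1 hg (df_op (df_var 1) (df_var 0))), fun a ha => ?_⟩
  obtain ⟨h3, h4, h5⟩ := h1 a ha
  refine ⟨fun z hz => ?_, h4.img (hga a), fun G hG hfun b hb hab => ?_⟩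
  · obtain ⟨p, hp, rfl⟩ := (mem_img (hga a)).1 hz
    exact (h2' a ha p (h3 p hp)).1
  · obtain ⟨p, hp, h6⟩ := (htr G hG a b).1 hab
    obtain ⟨q, hq, h7⟩ := hG.pred h hD (A := D a) (B := B a) (by
        intro p hp q hq
        obtain ⟨_, c, hc, h8⟩ := (mem_sep (hd a)).1 hp
        have : (⟨q, h.mem_M (h.left_mem hq)⟩ : M) ∈ D a :=
          (mem_sep (hd a)).2 ⟨h.left_mem hq, c, hc, fm_mono h h8 hq⟩
        exact this) (by
        intro c hc
        obtain ⟨d, hd', r, h8, h9⟩ := h5 c hc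
        exact ⟨d, hd', r.1, h.le_iff.1 h8, h.le_iff.1 h9⟩) (by
        have : (⟨p, h.mem_M (hG.sub p hp)⟩ : M) ∈ D a :=
          (mem_sep (hd a)).2 ⟨hG.sub p hp, b, hb, h6⟩
        exact ⟨p, hp, this⟩)
    obtain ⟨q, hq1, rfl⟩ := ex_val h7
    obtain ⟨h8, h9⟩ := h2' a ha q (h3 q hq1)
    have h10 : ZFSet.pair a.1 (g (op a q)).1 ∈ val G x.1 := (htr G hG a _).2 ⟨q.1, hq, h9⟩
    have h11 : b = g (op a q) := Subtype.ext (hfun _ _ hb h8 hab h10)
    rw [mem_img (hga a)]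
    exact ⟨q, hq1, h11⟩

end

end CPY
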