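import Pool.Agent.CPY.B.Chk

/-! # Names for pairs and images

(problem MP_ba5606_gt, project CPY, block (B2); no sorry in this file) -/

universe v

namespace CPY

open STP ZU

section

variable {N : Type v} [ZM N]

/-- the name `K × {o}` of the set of all values of elements of `K` -/
noncomputable def nmS (o K : N) : N := prd K (sg o)

@[simp] theorem df_nmS {o K : (ℕ → N) → N} (ho : DF o) (hK : DF K) :
    DF fun v => nmS (o v) (K v) := df_prd hK (df_sg ho)

/-- the name of an ordered pair -/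
noncomputable def opN (o a b : N) : N := nmS o (up (nmS o (up a a)) (nmS o (up a b)))

@[simp] theorem df_opN {o a b : (ℕ → N) → N} (ho : DF o) (ha : DF a) (hb : DF b) :
    DF fun v => opN (o v) (a v) (b v) :=
  df_nmS ho (df_up (df_nmS ho (df_up ha ha)) (df_nmS ho (df_up ha hb)))

end

variable {M : Set ZFSet.{0}} [tM : TM M] {Q : Po} {G : Set ZFSet.{0}}

/-- the values of the elements of a name, over `M` -/
theorem mem_valM {x : M} {z : ZFSet.{0}} :
    z ∈ val G x.1 ↔ ∃ y p : M, op y p ∈ x ∧ p.1 ∈ G ∧ z = val G y.1 := by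
  rw [mem_val]
  constructor
  · rintro ⟨y, p, h1, h2, rfl⟩
    obtain ⟨y', p', rfl, rfl, h3⟩ := mpair_ex h1
    exact ⟨y', p', h3, h2, rfl⟩
  · rintro ⟨y, p, h1, h2, rfl⟩
    exact ⟨y.1, p.1, mop_mem.1 h1, h2, rfl⟩

theorem mem_nmS {o K : M} (ho : o.1 ∈ G) {z : ZFSet.{0}} :
    z ∈ val G (nmS o K).1 ↔ ∃ w : M, w ∈ K ∧ z = val G w.1 := by
  rw [mem_valM]
  constructor
  · rintro ⟨y, p, h1, h2, rfl⟩
    exact ⟨y, (op_mem_prd.1 h1).1, rfl⟩
  · rintro ⟨w, hw, rfl⟩
    exact ⟨w, o, op_mem_prd.2 ⟨hw, mem_sg.2 rfl⟩, ho, rfl⟩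

theorem val_nmS_up {o a b : M} (ho : o.1 ∈ G) : val G (nmS o (up a b)).1 = {val G a.1, val G b.1} := by
  ext z
  rw [mem_nmS ho, ZFSet.mem_pair]
  constructor
  · rintro ⟨w, hw, rfl⟩
    rcases mem_up.1 hw with rfl | rfl <;> simp
  · rintro (rfl | rfl)
    · exact ⟨a, by simp, rfl⟩
    · exact ⟨b, by simp, rfl⟩

theorem val_opN {o a b : M} (ho : o.1 ∈ G) :
    val G (opN o a b).1 = ZFSet.pair (val G a.1) (val G b.1) := by
  unfold opN
  rw [val_nmS_up ho, val_nmS_up ho, val_nmS_up ho, ZFSet.pair]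
  simp

/-- an element of the extension has a name -/
theorem ext_ex (x : Ext M G) : ∃ a : M, x.1 = val G a.1 := by
  obtain ⟨a, ha, h⟩ := x.2
  exact ⟨⟨a, ha⟩, h.symm⟩

/-- the value of a name as an element of the extension -/
noncomputable def vx (G : Set ZFSet.{0}) (a : M) : Ext M G := ⟨val G a.1, a.1, a.2, rfl⟩

omit tM in
theorem vx_val (a : M) : (vx G a).1 = val G a.1 := rfl

omit tM in
theorem vx_surj (x : Ext M G) : ∃ a : M, x = vx G a := by
  obtain ⟨a, ha, h⟩ := x.2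
  exact ⟨⟨a, ha⟩, Subtype.ext h.symm⟩

omit tM in
theorem vals_surj (v : ℕ → Ext M G) : ∃ w : ℕ → M, v = vals G w := by
  choose w hw using fun i => vx_surj (v i)
  exact ⟨w, funext hw⟩

end CPY
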