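import Pool.Agent.CPY.B.Tr

/-! # Forcing over a countable transitive model: names of pairs, predense sets

(problem MP_ba5606_gt, project CPY, block (B)) -/

namespace CPY

open STP

variable {M : Set ZFSet.{0}} {Q : Po} {G : Set ZFSet.{0}}

/-- the canonical name of the unordered pair of the values of `a`, `b` -/
noncomputable def unm (Q : Po) (a b : ZFSet.{0}) : ZFSet.{0} :=
  {ZFSet.pair a Q.one, ZFSet.pair b Q.one}

/-- the canonical name of the ordered pair of the values of `a`, `b` -/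
noncomputable def onm (Q : Po) (a b : ZFSet.{0}) : ZFSet.{0} := unm Q (unm Q a a) (unm Q a b)

theorem val_unm (hG : Q.one ∈ G) (a b : ZFSet.{0}) : val G (unm Q a b) = {val G a, val G b} := by
  ext z
  rw [mem_val, ZFSet.mem_pair]
  constructor
  · rintro ⟨y, p, h1, _, rfl⟩
    rw [unm, ZFSet.mem_pair, ZFSet.pair_inj, ZFSet.pair_inj] at h1
    rcases h1 with ⟨rfl, _⟩ | ⟨rfl, _⟩
    · exact Or.inl rfl
    · exact Or.inr rfl
  · rintro (rfl | rfl)
    · exact ⟨a, Q.one, by simp [unm], hG, rfl⟩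
    · exact ⟨b, Q.one, by simp [unm], hG, rfl⟩

theorem val_onm (hG : Q.one ∈ G) (a b : ZFSet.{0}) :
    val G (onm Q a b) = ZFSet.pair (val G a) (val G b) := by
  rw [onm, val_unm hG, val_unm hG, val_unm hG]
  simp [ZFSet.pair]

/-- for canonical names of elements `x`, `y` -/
theorem val_onm_chk (hG : Q.one ∈ G) (x y : ZFSet.{0}) :
    val G (onm Q (chk Q x) (chk Q y)) = ZFSet.pair x y := by
  rw [val_onm hG, val_chk hG, val_chk hG]

/-- A generic filter which meets `A` meets every subset `B` of `A` such that every member of `A` is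
compatible with a member of `B` (for sets `A` closed under extensions). -/
theorem Gen.predense (h : IsPo M Q) (hD : FD M Q) (hG : Gen M Q G) {A B B' : ZFSet.{0}}
    (hB' : B' ∈ M) (hB : ∀ s, s ∈ B' ↔ s ∈ Q.P ∧ ∃ b ∈ B, Q.le s b)
    (hA : ∀ p ∈ A, ∀ q, Q.le q p → q ∈ A)
    (hAB : ∀ a ∈ A, ∃ b ∈ B, ∃ r, Q.le r a ∧ Q.le r b) (hAG : ∃ p ∈ G, p ∈ A) :
    ∃ p ∈ G, p ∈ B := by
  obtain ⟨p, hp, hpA⟩ := hAG
  obtain ⟨s, hs, hsB⟩ := hG.below h hD hB' hp (by
    intro q hq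
    obtain ⟨b, hb, r, h1, h2⟩ := hAB q (hA p hpA q hq)
    exact ⟨r, (hB r).2 ⟨h.left_mem h1, b, hb, h2⟩, h1⟩)
  obtain ⟨_, b, hb, h3⟩ := (hB s).1 hsB
  exact ⟨b, hG.up s hs b h3, hb⟩

end CPY
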