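import Pool.Agent.CPY.B.Vmin
import Pool.Agent.CPY.B.Nice

/-! # Product forcing

(forcing library CPY/B; no sorry in this file)

`prodPo Q R`: the product. `K` is generic for the product over `M` if and only if its projections are
`G`, `H` with `G` generic over `M`, `H` generic over `M[G]` and `K = G × H`; then `M[G][H] = M[K]`. -/

namespace CPY

open STP ZU

/-- the product of two partial orders -/
noncomputable def prodPo (Q R : Po) : Po where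
  P := ZFSet.prod Q.P R.P
  L := (ZFSet.prod (ZFSet.prod Q.P R.P) (ZFSet.prod Q.P R.P)).sep fun z =>
    ∃ p q p' q', z = ZFSet.pair (ZFSet.pair p q) (ZFSet.pair p' q') ∧ Q.le p p' ∧ R.le q q'
  one := ZFSet.pair Q.one R.one

theorem prodPo_le {Q R : Po} {p q p' q' : ZFSet.{0}} (hp : p ∈ Q.P) (hq : q ∈ R.P)
    (hp' : p' ∈ Q.P) (hq' : q' ∈ R.P) :
    (prodPo Q R).le (ZFSet.pair p q) (ZFSet.pair p' q') ↔ Q.le p p' ∧ R.le q q' := by
  unfold Po.le prodPo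
  simp only [ZFSet.mem_sep, ZFSet.pair_mem_prod]
  constructor
  · rintro ⟨-, a, b, c, d, h, h1, h2⟩
    rw [ZFSet.pair_inj, ZFSet.pair_inj, ZFSet.pair_inj] at h
    obtain ⟨⟨rfl, rfl⟩, rfl, rfl⟩ := h
    exact ⟨h1, h2⟩
  · rintro ⟨h1, h2⟩
    exact ⟨⟨⟨hp, hq⟩, hp', hq'⟩, p, q, p', q', rfl, h1, h2⟩

theorem prodPo_le_ex {Q R : Po} {u w : ZFSet.{0}} (h : (prodPo Q R).le u w) :
    ∃ p ∈ Q.P, ∃ q ∈ R.P, ∃ p' ∈ Q.P, ∃ q' ∈ R.P, u = ZFSet.pair p q ∧ w = ZFSet.pair p' q' ∧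
      Q.le p p' ∧ R.le q q' := by
  unfold Po.le prodPo at h
  simp only at h
  rw [ZFSet.mem_sep, ZFSet.pair_mem_prod, ZFSet.mem_prod, ZFSet.mem_prod] at h
  obtain ⟨⟨⟨p, hp, q, hq, rfl⟩, p', hp', q', hq', rfl⟩, a, b, c, d, h, h1, h2⟩ := h
  rw [ZFSet.pair_inj, ZFSet.pair_inj, ZFSet.pair_inj] at h
  obtain ⟨⟨rfl, rfl⟩, rfl, rfl⟩ := h
  exact ⟨p, hp, q, hq, p', hp', q', hq', rfl, rfl, h1, h2⟩

variable {M : Set ZFSet.{0}} [tM : TM M] {Q R : Po}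

theorem prodPo_isPo (h : IsPo M Q) (k : IsPo M R) : IsPo M (prodPo Q R) where
  P_mem := by
    have := (prd h.Pm k.Pm).2
    rwa [val_prd] at this
  L_mem := by
    have hD : Dfn fun v : ℕ → M => ∃ p q p' q', v 0 = op (op p q) (op p' q') ∧ op p p' ∈ h.Lm ∧
        op q q' ∈ k.Lm := by
      refine dfn_ex (dfn_ex (dfn_ex (dfn_ex ?_)))
      exact dfn_and (dfn_eq (df_var 4) (df_op (df_op (df_var 3) (df_var 2))
        (df_op (df_var 1) (df_var 0)))) (dfn_and (dfn_mem (df_op (df_var 3) (df_var 1))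
        (df_const _)) (dfn_mem (df_op (df_var 2) (df_var 0)) (df_const _)))
    have h1 : (sep (prd (prd h.Pm k.Pm) (prd h.Pm k.Pm)) fun z : M => ∃ p q p' q',
        z = op (op p q) (op p' q') ∧ op p p' ∈ h.Lm ∧ op q q' ∈ k.Lm).1 =
        (prd (prd h.Pm k.Pm) (prd h.Pm k.Pm)).1.sep fun z => ∃ p q p' q',
          z = ZFSet.pair (ZFSet.pair p q) (ZFSet.pair p' q') ∧ Q.le p p' ∧ R.le q q' := by
      refine val_sep (P := fun z : M => ∃ p q p' q',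
        z = op (op p q) (op p' q') ∧ op p p' ∈ h.Lm ∧ op q q' ∈ k.Lm) hD fun z hz => ?_
      constructor
      · rintro ⟨p, q, p', q', rfl, h1, h2⟩
        exact ⟨p.1, q.1, p'.1, q'.1, by rw [val_op, val_op, val_op], mop_mem.1 h1, mop_mem.1 h2⟩
      · rintro ⟨p, q, p', q', h0, h1, h2⟩
        obtain ⟨p1, p1', rfl, rfl, h3⟩ := mpair_ex (z := h.Lm) h1
        obtain ⟨q1, q1', rfl, rfl, h4⟩ := mpair_ex (z := k.Lm) h2
        exact ⟨p1, q1, p1', q1', Subtype.ext (by rw [h0, val_op, val_op, val_op]), h3, h4⟩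
    have h2 : (prd (prd h.Pm k.Pm) (prd h.Pm k.Pm)).1 =
        ZFSet.prod (ZFSet.prod Q.P R.P) (ZFSet.prod Q.P R.P) := by
      rw [val_prd, val_prd]
      rfl
    rw [h2] at h1
    unfold prodPo
    simp only
    rw [← h1]
    exact Subtype.property _
  one_mem := ZFSet.pair_mem_prod.2 ⟨h.one_mem, k.one_mem⟩
  sub z hz := by
    simp only [prodPo, ZFSet.mem_sep, ZFSet.mem_prod] at hz
    obtain ⟨⟨u, hu, w, hw, rfl⟩, -⟩ := hz
    exact ⟨u, ZFSet.mem_prod.2 hu, w, ZFSet.mem_prod.2 hw, rfl⟩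
  refl z hz := by
    obtain ⟨p, hp, q, hq, rfl⟩ := ZFSet.mem_prod.1 hz
    exact (prodPo_le hp hq hp hq).2 ⟨h.refl p hp, k.refl q hq⟩
  trans a b c hab hbc := by
    obtain ⟨p, hp, q, hq, p', hp', q', hq', rfl, rfl, h1, h2⟩ := prodPo_le_ex hab
    obtain ⟨p1, hp1, q1, hq1, p2, hp2, q2, hq2, h3, rfl, h4, h5⟩ := prodPo_le_ex hbc
    rw [ZFSet.pair_inj] at h3
    obtain ⟨rfl, rfl⟩ := h3
    exact (prodPo_le hp hq hp2 hq2).2 ⟨h.trans _ _ _ h1 h4, k.trans _ _ _ h2 h5⟩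
  le_one z hz := by
    obtain ⟨p, hp, q, hq, rfl⟩ := ZFSet.mem_prod.1 hz
    exact (prodPo_le hp hq h.one_mem k.one_mem).2 ⟨h.le_one p hp, k.le_one q hq⟩

end CPY
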