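import Pool.Agent.CPY.B.ProdG

/-! # Product forcing: iterated extensions

(forcing library CPY/B; no sorry in this file) -/

namespace CPY

open STP ZU

/-- the generic extension is a transitive model of ZF -/
theorem ext_tm {M : Set ZFSet.{0}} [tM : TM M] {Q : Po} {G : Set ZFSet.{0}} (hG : Gen M Q G)
    (h : IsPo M Q) : TM (Ext M G) := ⟨Ext_trans tM.tr, ext_zfa hG h⟩

variable {M : Set ZFSet.{0}} [tM : TM M] {Q R : Po} {K G H : Set ZFSet.{0}}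

/-- `M[G][H] = M[G × H]` -/
theorem ext_prod (hK : Gen M (prodPo Q R) K) (h : IsPo M Q) (k : IsPo M R) :
    Ext (Ext M (pfst K)) (psnd K) = Ext M K := by
  have hPo := prodPo_isPo h k
  have hG := hK.gfst h k
  have hH := hK.gsnd h k
  have t0 := ext_tm hG h
  have k' := h.ext k hG
  have t1 : TM (Ext M K) := ext_tm hK hPo
  have t2 : TM (Ext (Ext M (pfst K)) (psnd K)) := ext_tm hH k'
  have s0 : M ⊆ Ext M (pfst K) := sub_ext hG fun _ hx => chk_mem h hx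
  have s1 : M ⊆ Ext M K := sub_ext hK fun _ hx => chk_mem hPo hx
  have s2 : Ext M (pfst K) ⊆ Ext (Ext M (pfst K)) (psnd K) := sub_ext hH fun _ hx => chk_mem k' hx
  apply Set.Subset.antisymm
  · -- the filters are in `M[K]`
    have hKm : gset (prodPo Q R) K ∈ Ext M K := gset_ext hK (gnm_mem hPo)
    let Km : Ext M K := ⟨_, hKm⟩
    have hKm' : ∀ z : Ext M K, z ∈ Km ↔ z.1 ∈ K := fun z => mem_gset hK
    have hP : Q.P ∈ Ext M K := s1 h.P_mem
    have hR : R.P ∈ Ext M K := s1 k.P_mem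
    have h1 : Ext M (pfst K) ⊆ Ext M K := by
      have hD : Dfn fun v : ℕ → Ext M K => ∃ q, op (v 0) q ∈ Km :=
        dfn_ex (dfn_mem (df_op (df_var 1) (df_var 0)) (df_const _))
      refine ext_min s1 (g := (sep (⟨Q.P, hP⟩ : Ext M K) fun p => ∃ q, op p q ∈ Km).1)
        (Subtype.property _) fun p => ?_
      constructor
      · intro hp
        obtain ⟨p', hp', rfl⟩ := ex_val hp
        obtain ⟨-, q, hq⟩ := (ZU.mem_sep hD).1 hp'
        rw [hKm', val_op] at hq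
        exact ⟨q.1, hq⟩
      · rintro ⟨q, hq⟩
        obtain ⟨hp, hq'⟩ := hK.pr_mem hq
        have hpM : p ∈ Ext M K := t1.tr _ hP _ hp
        have hqM : q ∈ Ext M K := t1.tr _ hR _ hq'
        have : (⟨p, hpM⟩ : Ext M K) ∈ sep (⟨Q.P, hP⟩ : Ext M K) fun p => ∃ q, op p q ∈ Km := by
          rw [ZU.mem_sep hD]
          refine ⟨hp, ⟨q, hqM⟩, ?_⟩
          rw [hKm', val_op]
          exact hq
        exact this
    have hD : Dfn fun v : ℕ → Ext M K => ∃ p, op p (v 0) ∈ Km :=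
      dfn_ex (dfn_mem (df_op (df_var 0) (df_var 1)) (df_const _))
    refine ext_min h1 (g := (sep (⟨R.P, hR⟩ : Ext M K) fun q => ∃ p, op p q ∈ Km).1)
      (Subtype.property _) fun q => ?_
    constructor
    · intro hq
      obtain ⟨q', hq', rfl⟩ := ex_val hq
      obtain ⟨-, p, hp⟩ := (ZU.mem_sep hD).1 hq'
      rw [hKm', val_op] at hp
      exact ⟨p.1, hp⟩
    · rintro ⟨p, hp⟩
      obtain ⟨hp', hq'⟩ := hK.pr_mem hp
      have hpM : p ∈ Ext M K := t1.tr _ hP _ hp'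
      have hqM : q ∈ Ext M K := t1.tr _ hR _ hq'
      have : (⟨q, hqM⟩ : Ext M K) ∈ sep (⟨R.P, hR⟩ : Ext M K) fun q => ∃ p, op p q ∈ Km := by
        rw [ZU.mem_sep hD]
        refine ⟨hq', ⟨p, hpM⟩, ?_⟩
        rw [hKm', val_op]
        exact hp
      exact this
  · let W := Ext (Ext M (pfst K)) (psnd K)
    have hg : gset Q (pfst K) ∈ W := s2 (gset_ext hG (gnm_mem h))
    have hh : gset R (psnd K) ∈ W := gset_ext hH (gnm_mem k')
    refine ext_min (s0.trans s2) (g := (prd (⟨_, hg⟩ : W) ⟨_, hh⟩).1) (Subtype.property _) fun z => ?_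
    rw [val_prd, ZFSet.mem_prod]
    constructor
    · rintro ⟨p, hp, q, hq, rfl⟩
      exact (hK.pr_iff h k).2 ⟨(mem_gset hG).1 hp, (mem_gset hH).1 hq⟩
    · intro hz
      obtain ⟨p, hp, q, hq, rfl⟩ := ZFSet.mem_prod.1 (hK.sub z hz)
      obtain ⟨h1, h2⟩ := (hK.pr_iff h k).1 hz
      exact ⟨p, (mem_gset hG).2 h1, q, (mem_gset hH).2 h2, rfl⟩

/-- the product of a generic filter `G` over `M` and a generic filter over `M[G]` is generic -/
theorem Gen.times (hG : Gen M Q G) (hH : Gen (Ext M G) R H) (h : IsPo M Q) (k : IsPo M R) :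
    Gen M (prodPo Q R) (ptim G H) where
  sub := by
    rintro z ⟨p, hp, q, hq, rfl⟩
    exact ZFSet.pair_mem_prod.2 ⟨hG.sub p hp, hH.sub q hq⟩
  one := ⟨_, hG.one, _, hH.one, rfl⟩
  up := by
    rintro z ⟨p, hp, q, hq, rfl⟩ w hw
    obtain ⟨a, ha, b, hb, a', ha', b', hb', h3, rfl, h4, h5⟩ := prodPo_le_ex hw
    rw [ZFSet.pair_inj] at h3
    obtain ⟨rfl, rfl⟩ := h3
    exact ⟨a', hG.up _ hp _ h4, b', hH.up _ hq _ h5, rfl⟩
  dir := by
    rintro z ⟨p, hp, q, hq, rfl⟩ w ⟨p', hp', q', hq', rfl⟩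
    obtain ⟨a, ha, h1, h2⟩ := hG.dir p hp p' hp'
    obtain ⟨b, hb, h3, h4⟩ := hH.dir q hq q' hq'
    exact ⟨_, ⟨a, ha, b, hb, rfl⟩,
      (prodPo_le (hG.sub a ha) (hH.sub b hb) (hG.sub p hp) (hH.sub q hq)).2 ⟨h1, h3⟩,
      (prodPo_le (hG.sub a ha) (hH.sub b hb) (hG.sub p' hp') (hH.sub q' hq')).2 ⟨h2, h4⟩⟩
  gen := by
    intro D hD hd
    have t0 := ext_tm hG h
    have s0 : M ⊆ Ext M G := sub_ext hG fun _ hx => chk_mem h hx
    have hg : gset Q G ∈ Ext M G := gset_ext hG (gnm_mem h)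
    let g : Ext M G := ⟨_, hg⟩
    let D' : Ext M G := ⟨D, s0 hD⟩
    have hDf : Dfn fun v : ℕ → Ext M G => ∃ p, p ∈ g ∧ op p (v 0) ∈ D' :=
      dfn_ex (dfn_and (dfn_mem (df_var 0) (df_const _)) (dfn_mem (df_op (df_var 0) (df_var 1))
        (df_const _)))
    let RP : Ext M G := ⟨R.P, s0 k.P_mem⟩
    obtain ⟨q, hq, hq1⟩ := hH.gen (sep RP fun q => ∃ p, p ∈ g ∧ op p q ∈ D').1
      (Subtype.property _) (by
      intro q hq
      have hqM : q ∈ M := k.in_M hq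
      have hEf : Dfn fun v : ℕ → M => ∃ q', op q' ⟨q, hqM⟩ ∈ k.Lm ∧ op (v 0) q' ∈ (⟨D, hD⟩ : M) :=
        dfn_ex (dfn_and (dfn_mem (df_op (df_var 0) (df_const _)) (df_const _))
          (dfn_mem (df_op (df_var 1) (df_var 0)) (df_const _)))
      obtain ⟨p, hp, hp1⟩ := hG.gen (sep h.Pm fun p => ∃ q', op q' ⟨q, hqM⟩ ∈ k.Lm ∧
          op p q' ∈ (⟨D, hD⟩ : M)).1 (Subtype.property _) (by
        intro p hp
        obtain ⟨z, hz, h1⟩ := hd (ZFSet.pair p q) (ZFSet.pair_mem_prod.2 ⟨hp, hq⟩)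
        obtain ⟨a, ha, b, hb, a', ha', b', hb', rfl, h3, h4, h5⟩ := prodPo_le_ex h1
        rw [ZFSet.pair_inj] at h3
        obtain ⟨rfl, rfl⟩ := h3
        refine ⟨a, ?_, h4⟩
        have : (⟨a, h.in_M ha⟩ : M) ∈ sep h.Pm fun p => ∃ q', op q' ⟨q, hqM⟩ ∈ k.Lm ∧
            op p q' ∈ (⟨D, hD⟩ : M) := by
          rw [ZU.mem_sep hEf]
          exact ⟨ha, ⟨b, k.in_M hb⟩, k.leM.2 h5, mop_mem.2 hz⟩
        exact this)
      have hpM : p ∈ M := h.in_M (hG.sub p hp)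
      have hp2 : (⟨p, hpM⟩ : M) ∈ sep h.Pm fun p => ∃ q', op q' ⟨q, hqM⟩ ∈ k.Lm ∧
          op p q' ∈ (⟨D, hD⟩ : M) := hp1
      rw [ZU.mem_sep hEf] at hp2
      obtain ⟨-, q', h1, h2⟩ := hp2
      have h3 : ZFSet.pair p q'.1 ∈ D := mop_mem.1 h2
      refine ⟨q'.1, ?_, k.leM.1 h1⟩
      have : (⟨q'.1, s0 q'.2⟩ : Ext M G) ∈ sep RP fun q => ∃ p, p ∈ g ∧ op p q ∈ D' := by
        rw [ZU.mem_sep hDf]
        exact ⟨k.left_mem (k.leM.1 h1), ⟨p, s0 hpM⟩, (mem_gset hG).2 hp, mop_mem.2 h3⟩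
      exact this)
    have hq2 : (⟨q, s0 (k.in_M (hH.sub q hq))⟩ : Ext M G) ∈
        sep RP fun q => ∃ p, p ∈ g ∧ op p q ∈ D' := hq1
    rw [ZU.mem_sep hDf] at hq2
    obtain ⟨-, p, h1, h2⟩ := hq2
    exact ⟨_, ⟨p.1, (mem_gset hG).1 h1, q, hq, rfl⟩, mop_mem.1 h2⟩

end CPY
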