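import Pool.Agent.CPY.B.Prod
import Pool.Agent.CPY.B.Dfo

/-! # Product forcing: generic filters

(forcing library CPY/B; no sorry in this file) -/

namespace CPY

open STP ZU

variable {M : Set ZFSet.{0}} {Q R : Po} {K G H : Set ZFSet.{0}}

/-- first projection of a filter of the product -/
def pfst (K : Set ZFSet.{0}) : Set ZFSet.{0} := {p | ∃ q, ZFSet.pair p q ∈ K}

/-- second projection of a filter of the product -/
def psnd (K : Set ZFSet.{0}) : Set ZFSet.{0} := {q | ∃ p, ZFSet.pair p q ∈ K}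

/-- the product of two filters -/
def ptim (G H : Set ZFSet.{0}) : Set ZFSet.{0} := {z | ∃ p ∈ G, ∃ q ∈ H, z = ZFSet.pair p q}

theorem Gen.pr_mem (hK : Gen M (prodPo Q R) K) {p q : ZFSet.{0}} (h : ZFSet.pair p q ∈ K) :
    p ∈ Q.P ∧ q ∈ R.P := ZFSet.pair_mem_prod.1 (hK.sub _ h)

theorem Gen.pr_one (hK : Gen M (prodPo Q R) K) (h : IsPo M Q) (k : IsPo M R) {p q : ZFSet.{0}}
    (hp : ZFSet.pair p q ∈ K) : ZFSet.pair p R.one ∈ K ∧ ZFSet.pair Q.one q ∈ K := by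
  obtain ⟨h1, h2⟩ := hK.pr_mem hp
  exact ⟨hK.up _ hp _ ((prodPo_le h1 h2 h1 k.one_mem).2 ⟨h.refl _ h1, k.le_one _ h2⟩),
    hK.up _ hp _ ((prodPo_le h1 h2 h.one_mem h2).2 ⟨h.le_one _ h1, k.refl _ h2⟩)⟩

/-- a generic filter of the product is the product of its projections -/
theorem Gen.pr_iff (hK : Gen M (prodPo Q R) K) (h : IsPo M Q) (k : IsPo M R) {p q : ZFSet.{0}} :
    ZFSet.pair p q ∈ K ↔ p ∈ pfst K ∧ q ∈ psnd K := by
  constructor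
  · exact fun hp => ⟨⟨q, hp⟩, p, hp⟩
  · rintro ⟨⟨q', hq'⟩, p', hp'⟩
    obtain ⟨r, hr, h1, h2⟩ := hK.dir _ hq' _ hp'
    obtain ⟨a, ha, b, hb, a', ha', b', hb', rfl, h3, h4, h5⟩ := prodPo_le_ex h1
    obtain ⟨c, hc, d, hd, c', hc', d', hd', h6, h7, h8, h9⟩ := prodPo_le_ex h2
    rw [ZFSet.pair_inj] at h3 h6 h7
    obtain ⟨rfl, rfl⟩ := h3
    obtain ⟨rfl, rfl⟩ := h6
    obtain ⟨rfl, rfl⟩ := h7
    exact hK.up _ hr _ ((prodPo_le ha hb ha' hd').2 ⟨h4, h9⟩)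

variable [tM : TM M]

/-- the first projection of a generic filter of the product is generic -/
theorem Gen.gfst (hK : Gen M (prodPo Q R) K) (h : IsPo M Q) (k : IsPo M R) :
    Gen M Q (pfst K) where
  sub := by
    rintro p ⟨q, hp⟩
    exact (hK.pr_mem hp).1
  one := ⟨R.one, hK.one⟩
  up := by
    rintro p ⟨q, hp⟩ p' hp'
    obtain ⟨h1, h2⟩ := hK.pr_mem hp
    exact ⟨q, hK.up _ hp _ ((prodPo_le h1 h2 (h.right_mem hp') h2).2 ⟨hp', k.refl _ h2⟩)⟩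
  dir := by
    rintro p ⟨q, hp⟩ p' ⟨q', hp'⟩
    obtain ⟨r, hr, h1, h2⟩ := hK.dir _ hp _ hp'
    obtain ⟨a, ha, b, hb, a', ha', b', hb', rfl, h3, h4, h5⟩ := prodPo_le_ex h1
    obtain ⟨c, hc, d, hd, c', hc', d', hd', h6, h7, h8, h9⟩ := prodPo_le_ex h2
    rw [ZFSet.pair_inj] at h3 h6 h7
    obtain ⟨rfl, rfl⟩ := h3
    obtain ⟨rfl, rfl⟩ := h6
    obtain ⟨rfl, rfl⟩ := h7
    exact ⟨a, ⟨b, hr⟩, h4, h8⟩
  gen := by
    intro D hD hd
    have hE : (ZFSet.prod Q.P R.P).sep (fun z => ∃ p q, z = ZFSet.pair p q ∧ p ∈ D) ∈ M := by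
      have h0 : ZFSet.prod Q.P R.P ∈ M := (prodPo_isPo h k).P_mem
      have hDf : Dfn fun v : ℕ → M => ∃ p q, v 0 = op p q ∧ p ∈ (⟨D, hD⟩ : M) :=
        dfn_ex (dfn_ex (dfn_and (dfn_eq (df_var 2) (df_op (df_var 1) (df_var 0)))
          (dfn_mem (df_var 1) (df_const _))))
      have := val_sep (x := (⟨_, h0⟩ : M)) (P := fun z => ∃ p q, z = op p q ∧ p ∈ (⟨D, hD⟩ : M))
        (P' := fun z => ∃ p q, z = ZFSet.pair p q ∧ p ∈ D) hDf (fun z hz => by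
          constructor
          · rintro ⟨p, q, rfl, h1⟩
            exact ⟨p.1, q.1, val_op, h1⟩
          · rintro ⟨p, q, h1, h2⟩
            have hpq : ZFSet.pair p q ∈ M := h1 ▸ z.2
            obtain ⟨hp, hq⟩ := pair_mem_iff.1 hpq
            exact ⟨⟨p, hp⟩, ⟨q, hq⟩, Subtype.ext (by rw [val_op]; exact h1), h2⟩)
      rw [← this]
      exact Subtype.property _
    obtain ⟨z, hz, hz1⟩ := hK.gen _ hE (by
      intro z hz
      obtain ⟨p, hp, q, hq, rfl⟩ := ZFSet.mem_prod.1 hz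
      obtain ⟨p', hp', h1⟩ := hd p hp
      exact ⟨ZFSet.pair p' q, ZFSet.mem_sep.2 ⟨ZFSet.pair_mem_prod.2 ⟨h.left_mem h1, hq⟩,
        p', q, rfl, hp'⟩, (prodPo_le (h.left_mem h1) hq hp hq).2 ⟨h1, k.refl _ hq⟩⟩)
    obtain ⟨-, p, q, rfl, hp⟩ := ZFSet.mem_sep.1 hz1
    exact ⟨p, ⟨q, hz⟩, hp⟩

theorem IsPo.ext (h : IsPo M Q) (k : IsPo M R) (hG : Gen M Q G) : IsPo (Ext M G) R where
  P_mem := sub_ext hG (fun _ hx => chk_mem h hx) k.P_mem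
  L_mem := sub_ext hG (fun _ hx => chk_mem h hx) k.L_mem
  one_mem := k.one_mem
  sub := k.sub
  refl := k.refl
  trans := k.trans
  le_one := k.le_one

/-- the second projection of a generic filter of the product is generic over `M[G]` -/
theorem Gen.gsnd (hK : Gen M (prodPo Q R) K) (h : IsPo M Q) (k : IsPo M R) :
    Gen (Ext M (pfst K)) R (psnd K) where
  sub := by
    rintro q ⟨p, hp⟩
    exact (hK.pr_mem hp).2
  one := ⟨Q.one, hK.one⟩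
  up := by
    rintro q ⟨p, hp⟩ q' hq'
    obtain ⟨h1, h2⟩ := hK.pr_mem hp
    exact ⟨p, hK.up _ hp _ ((prodPo_le h1 h2 h1 (k.right_mem hq')).2 ⟨h.refl _ h1, hq'⟩)⟩
  dir := by
    rintro q ⟨p, hp⟩ q' ⟨p', hp'⟩
    obtain ⟨r, hr, h1, h2⟩ := hK.dir _ hp _ hp'
    obtain ⟨a, ha, b, hb, a', ha', b', hb', rfl, h3, h4, h5⟩ := prodPo_le_ex h1
    obtain ⟨c, hc, d, hd, c', hc', d', hd', h6, h7, h8, h9⟩ := prodPo_le_ex h2
    rw [ZFSet.pair_inj] at h3 h6 h7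
    obtain ⟨rfl, rfl⟩ := h3
    obtain ⟨rfl, rfl⟩ := h6
    obtain ⟨rfl, rfl⟩ := h7
    exact ⟨b, ⟨a, hr⟩, h5, h9⟩
  gen := by
    rintro _ ⟨d, hd, rfl⟩ hdense
    have hG := hK.gfst h k
    have hPo := prodPo_isPo h k
    -- `p` forces `q ∈ d`
    let F : M → M → Prop := fun p q => fm Q (chkM h.om q).1 d p.1
    have hF : Dfn fun v : ℕ → M => F (v 0) (v 1) :=
      dfn_fm h (df_chkM (df_const _) (df_var 1)) (df_const ⟨d, hd⟩) (df_var 0)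
    have hE0 : Dfn fun v : ℕ → M => F (fst (v 0)) (snd (v 0)) ∨
        ∀ w : M, op w (v 0) ∈ hPo.Lm → ¬ F (fst w) (snd w) := by
      refine dfn_or (dfn2 hF (df_fst (df_var 0)) (df_snd (df_var 0))) (dfn_all
        (R := fun w v => op w (v 0) ∈ hPo.Lm → ¬ F (fst w) (snd w)) (dfn_imp (dfn_mem
          (df_op (df_var 0) (df_var 1)) (df_const _)) (dfn_not (dfn2 hF (df_fst (df_var 0))
            (df_snd (df_var 0))))))
    have hE : ∀ z : M, z ∈ sep hPo.Pm (fun u => F (fst u) (snd u) ∨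
        ∀ w : M, op w u ∈ hPo.Lm → ¬ F (fst w) (snd w)) ↔ z ∈ hPo.Pm ∧ (F (fst z) (snd z) ∨
        ∀ w : M, op w z ∈ hPo.Lm → ¬ F (fst w) (snd w)) := fun z =>
      ZU.mem_sep (P := fun u => F (fst u) (snd u) ∨
        ∀ w : M, op w u ∈ hPo.Lm → ¬ F (fst w) (snd w)) hE0
    obtain ⟨z, hz, hz1⟩ := hK.gen _ (sep hPo.Pm (fun u => F (fst u) (snd u) ∨
        ∀ w : M, op w u ∈ hPo.Lm → ¬ F (fst w) (snd w))).2 (by
      intro z hz
      by_cases hc : ∃ w : M, op w ⟨z, hPo.in_M hz⟩ ∈ hPo.Lm ∧ F (fst w) (snd w)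
      · obtain ⟨w, h1, h2⟩ := hc
        have h3 := hPo.leM.1 h1
        exact ⟨w.1, (hE w).2 ⟨hPo.left_mem h3, Or.inl h2⟩, h3⟩
      · refine ⟨z, (hE ⟨z, hPo.in_M hz⟩).2 ⟨hz, Or.inr fun w h1 h2 => hc ⟨w, h1, h2⟩⟩,
          hPo.refl z hz⟩)
    have hzM : z ∈ M := hPo.in_M (hK.sub z hz)
    have hz2 := (hE ⟨z, hzM⟩).1 hz1
    obtain ⟨p, hp, q, hq, rfl⟩ := ZFSet.mem_prod.1 (hK.sub z hz)
    obtain ⟨hpM, hqM⟩ := pair_mem_iff.1 hzM
    have e : (⟨ZFSet.pair p q, hzM⟩ : M) = op ⟨p, hpM⟩ ⟨q, hqM⟩ :=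
      Subtype.ext (by rw [val_op])
    rw [e, fst_op, snd_op] at hz2
    have hchk : ∀ q : M, val (pfst K) (chkM h.om q).1 = q.1 := fun q => by
      rw [chkM_val (o := h.om) rfl, val_chk hG.one]
    rcases hz2.2 with h1 | h1
    · refine ⟨q, ⟨p, hz⟩, ?_⟩
      have := (truth_mem tM.tr h (fd h) hG (chkM h.om ⟨q, hqM⟩).2 hd).2 ⟨p, ⟨q, hz⟩, h1⟩
      rwa [hchk] at this
    · exfalso
      obtain ⟨q', hq', h2⟩ := hdense q hq
      have hq'M : q' ∈ M := k.in_M (k.left_mem h2)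
      have h3 : val (pfst K) (chkM h.om ⟨q', hq'M⟩).1 ∈ val (pfst K) d := by
        rw [hchk]
        exact hq'
      obtain ⟨r, hr, h4⟩ := (truth_mem tM.tr h (fd h) hG (chkM h.om ⟨q', hq'M⟩).2 hd).1 h3
      obtain ⟨s, hs, hs1, hs2⟩ := hG.dir r hr p ⟨q, hz⟩
      have hsM : s ∈ M := h.in_M (hG.sub s hs)
      refine h1 (op ⟨s, hsM⟩ ⟨q', hq'M⟩) ?_ ?_
      · rw [hPo.leM, val_op, val_op]
        exact (prodPo_le (hG.sub s hs) (k.left_mem h2) hp hq).2 ⟨hs2, h2⟩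
      · rw [fst_op, snd_op]
        exact fm_mono h h4 hs1

end CPY
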