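import Pool.Agent.CPY.B.Gx

/-! # Forcing over a countable transitive model: the truth lemma

(problem MP_ba5606_gt, project CPY, block (B))

`FD M Q` lists the dense sets which have to be elements of `M`. -/

namespace CPY

open STP

/-- the closure properties of `M` which are used in the truth lemma (consequences of the definability
of the forcing relation over `M`) -/
structure FD (M : Set ZFSet.{0}) (Q : Po) : Prop where
  d0 : ∀ A ∈ M, ∀ p ∈ Q.P, (Q.P.sep fun q => q ∈ A ∨ ∀ r, Q.le r q → ¬ Q.le r p) ∈ M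
  d1 : ∀ z ∈ M, ∀ y ∈ M, (Q.P.sep fun q => ∃ w s, ZFSet.pair w s ∈ y ∧ Q.le q s ∧ fe Q z w q) ∈ M
  d2 : ∀ x ∈ M, ∀ y ∈ M, (Q.P.sep fun q => fe Q x y q ∨
    (∃ z r, ZFSet.pair z r ∈ x ∧ Q.le q r ∧ ∀ q', Q.le q' q → ¬ fm Q z y q') ∨
    (∃ w s, ZFSet.pair w s ∈ y ∧ Q.le q s ∧ ∀ q', Q.le q' q → ¬ fm Q w x q')) ∈ M
  d3 : ∀ (φ : Fml) (v : ℕ → M), (Q.P.sep fun q => ff M Q φ v q ∨ ff M Q φ.no v q) ∈ M
  d4 : ∀ (φ : Fml) (v : ℕ → M),
    (Q.P.sep fun q => ff M Q (.all φ) v q ∨ ∃ x : M, ff M Q φ.no (cns x v) q) ∈ M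

variable {M : Set ZFSet.{0}} {Q : Po} {G : Set ZFSet.{0}}

/-- a generic filter meets every set of `M` which is dense below one of its members -/
theorem Gen.below (h : IsPo M Q) (hD : FD M Q) (hG : Gen M Q G) {A : ZFSet.{0}} (hA : A ∈ M)
    {p : ZFSet.{0}} (hp : p ∈ G) (hd : ∀ q, Q.le q p → ∃ r ∈ A, Q.le r q) :
    ∃ r ∈ G, r ∈ A := by
  obtain ⟨q, hq, hqA⟩ := hG.gen _ (hD.d0 A hA p (hG.sub p hp)) (by
    intro a ha
    by_cases hc : ∃ r, Q.le r a ∧ Q.le r p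
    · obtain ⟨r, h1, h2⟩ := hc
      obtain ⟨s, h3, h4⟩ := hd r h2
      exact ⟨s, ZFSet.mem_sep.2 ⟨h.left_mem h4, Or.inl h3⟩, h.trans _ _ _ h4 h1⟩
    · refine ⟨a, ZFSet.mem_sep.2 ⟨ha, Or.inr fun r h1 h2 => hc ⟨r, h1, h2⟩⟩, h.refl a ha⟩)
  rw [ZFSet.mem_sep] at hqA
  obtain ⟨hqP, hq1⟩ := hqA
  rcases hq1 with hq1 | hq1
  · exact ⟨q, hq, hq1⟩
  · obtain ⟨r, hr, hr1, hr2⟩ := hG.dir q hq p hp
    exact absurd hr2 (hq1 r hr1)

theorem dm_mem (hM : ∀ x ∈ M, ∀ y ∈ x, y ∈ M) {x z : ZFSet.{0}} (hx : x ∈ M) (hz : dm z x) :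
    z ∈ M := by
  obtain ⟨p, hp⟩ := hz
  obtain ⟨s, h1, h2, h3⟩ := mem_trans_pair_left hp
  exact hM _ (hM _ (hM _ hx _ h3) _ h2) _ h1

theorem mem_val_of {y w s : ZFSet.{0}} (hw : ZFSet.pair w s ∈ y) (hs : s ∈ G) :
    val G w ∈ val G y := mem_val.2 ⟨w, s, hw, hs, rfl⟩

/-- The truth lemma for equality. -/
theorem truth_eq (hM : ∀ x ∈ M, ∀ y ∈ x, y ∈ M) (h : IsPo M Q) (hD : FD M Q) (hG : Gen M Q G)
    {x y : ZFSet.{0}} (hx : x ∈ M) (hy : y ∈ M) : val G x = val G y ↔ ∃ p ∈ G, fe Q x y p := by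
  induction x using dm_wf.induction generalizing y with
  | _ x IH =>
    constructor
    · intro he
      obtain ⟨q, hq, hq1⟩ := hG.gen _ (hD.d2 x hx y hy) (by
        intro p hp
        by_cases hf : fe Q x y p
        · exact ⟨p, ZFSet.mem_sep.2 ⟨hp, Or.inl hf⟩, h.refl p hp⟩
        rw [fe_iff] at hf
        rcases not_and_or.1 hf with hf | hf
        · push Not at hf
          obtain ⟨z, r, hz, q, h1, h2, h3⟩ := hf
          refine ⟨q, ZFSet.mem_sep.2 ⟨h.left_mem h1, Or.inr (Or.inl ⟨z, r, hz, h2, ?_⟩)⟩, h1⟩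
          intro q' h4 h5
          obtain ⟨q'', h6, w, s, h7, h8, h9⟩ := h5 q' (h.refl _ (h.left_mem h4))
          exact h3 q'' (h.trans _ _ _ h6 h4) w s h7 h8 h9
        · push Not at hf
          obtain ⟨w, s, hw, q, h1, h2, h3⟩ := hf
          refine ⟨q, ZFSet.mem_sep.2 ⟨h.left_mem h1, Or.inr (Or.inr ⟨w, s, hw, h2, ?_⟩)⟩, h1⟩
          intro q' h4 h5
          obtain ⟨q'', h6, z, r, h7, h8, h9⟩ := h5 q' (h.refl _ (h.left_mem h4))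
          exact h3 q'' (h.trans _ _ _ h6 h4) z r h7 h8 (fe_comm.1 h9))
      rw [ZFSet.mem_sep] at hq1
      rcases hq1.2 with hq1 | ⟨z, r, hz, hr, hn⟩ | ⟨w, s, hw, hs, hn⟩
      · exact ⟨q, hq, hq1⟩
      · exfalso
        have h1 : val G z ∈ val G y := he ▸ mem_val_of hz (hG.up q hq r hr)
        obtain ⟨w, s, hw, hs, h2⟩ := mem_val.1 h1
        obtain ⟨p', hp', h3⟩ := (IH z ⟨r, hz⟩ (dm_mem hM hx ⟨r, hz⟩) (dm_mem hM hy ⟨s, hw⟩)).1 h2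
        obtain ⟨t, _, ht1, ht2, ht3⟩ := hG.dir3 h hq hs hp'
        exact hn t ht1 (fm_of h hw ht2 (fe_mono h h3 ht3))
      · exfalso
        have h1 : val G w ∈ val G x := he ▸ mem_val_of hw (hG.up q hq s hs)
        obtain ⟨z, r, hz, hr, h2⟩ := mem_val.1 h1
        obtain ⟨p', hp', h3⟩ :=
          (IH z ⟨r, hz⟩ (dm_mem hM hx ⟨r, hz⟩) (dm_mem hM hy ⟨s, hw⟩)).1 h2.symm
        obtain ⟨t, _, ht1, ht2, ht3⟩ := hG.dir3 h hq hr hp'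
        exact hn t ht1 (fm_of h hz ht2 (fe_mono h (fe_comm.1 h3) ht3))
    · rintro ⟨p, hp, hf⟩
      rw [fe_iff] at hf
      ext u
      constructor
      · intro hu
        obtain ⟨z, r, hz, hr, rfl⟩ := mem_val.1 hu
        obtain ⟨q, hq, hq1, hq2⟩ := hG.dir p hp r hr
        obtain ⟨t, ht, ht1⟩ := hG.below h hD (hD.d1 z (dm_mem hM hx ⟨r, hz⟩) y hy) hq (by
          intro q1 h1
          obtain ⟨q', h2, w, s, h3, h4, h5⟩ :=
            hf.1 z r hz q1 (h.trans _ _ _ h1 hq1) (h.trans _ _ _ h1 hq2)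
          exact ⟨q', ZFSet.mem_sep.2 ⟨h.left_mem h2, w, s, h3, h4, h5⟩, h2⟩)
        obtain ⟨_, w, s, hw, hs, h6⟩ := ZFSet.mem_sep.1 ht1
        rw [(IH z ⟨r, hz⟩ (dm_mem hM hx ⟨r, hz⟩) (dm_mem hM hy ⟨s, hw⟩)).2 ⟨t, ht, h6⟩]
        exact mem_val_of hw (hG.up t ht s hs)
      · intro hu
        obtain ⟨w, s, hw, hs, rfl⟩ := mem_val.1 hu
        obtain ⟨q, hq, hq1, hq2⟩ := hG.dir p hp s hs
        obtain ⟨t, ht, ht1⟩ := hG.below h hD (hD.d1 w (dm_mem hM hy ⟨s, hw⟩) x hx) hq (by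
          intro q1 h1
          obtain ⟨q', h2, z, r, h3, h4, h5⟩ :=
            hf.2 w s hw q1 (h.trans _ _ _ h1 hq1) (h.trans _ _ _ h1 hq2)
          exact ⟨q', ZFSet.mem_sep.2 ⟨h.left_mem h2, z, r, h3, h4, fe_comm.1 h5⟩, h2⟩)
        obtain ⟨_, z, r, hz, hr, h6⟩ := ZFSet.mem_sep.1 ht1
        rw [← (IH z ⟨r, hz⟩ (dm_mem hM hx ⟨r, hz⟩) (dm_mem hM hy ⟨s, hw⟩)).2 ⟨t, ht, fe_comm.1 h6⟩]
        exact mem_val_of hz (hG.up t ht r hr)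

/-- The truth lemma for membership. -/
theorem truth_mem (hM : ∀ x ∈ M, ∀ y ∈ x, y ∈ M) (h : IsPo M Q) (hD : FD M Q) (hG : Gen M Q G)
    {x y : ZFSet.{0}} (hx : x ∈ M) (hy : y ∈ M) : val G x ∈ val G y ↔ ∃ p ∈ G, fm Q x y p := by
  constructor
  · intro h1
    obtain ⟨w, s, hw, hs, h2⟩ := mem_val.1 h1
    obtain ⟨p, hp, h3⟩ := (truth_eq hM h hD hG hx (dm_mem hM hy ⟨s, hw⟩)).1 h2
    obtain ⟨t, ht, ht1, ht2⟩ := hG.dir s hs p hp
    exact ⟨t, ht, fm_of h hw ht1 (fe_mono h h3 ht2)⟩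
  · rintro ⟨p, hp, hf⟩
    obtain ⟨t, ht, ht1⟩ := hG.below h hD (hD.d1 x hx y hy) hp (by
      intro q h1
      obtain ⟨q', h2, w, s, h3, h4, h5⟩ := hf q h1
      exact ⟨q', ZFSet.mem_sep.2 ⟨h.left_mem h2, w, s, h3, h4, h5⟩, h2⟩)
    obtain ⟨_, w, s, hw, hs, h6⟩ := ZFSet.mem_sep.1 ht1
    rw [(truth_eq hM h hD hG hx (dm_mem hM hy ⟨s, hw⟩)).2 ⟨t, ht, h6⟩]
    exact mem_val_of hw (hG.up t ht s hs)

/-- The truth lemma. -/
theorem truth (hM : ∀ x ∈ M, ∀ y ∈ x, y ∈ M) (h : IsPo M Q) (hD : FD M Q) (hG : Gen M Q G)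
    (φ : Fml) (v : ℕ → M) :
    sat (Em (Ext M G)) φ (vals G v) ↔ ∃ p ∈ G, ff M Q φ v p := by
  induction φ generalizing v with
  | mem i j => exact truth_mem hM h hD hG (v i).2 (v j).2
  | eq i j =>
    rw [sat_eq, Subtype.ext_iff]
    exact truth_eq hM h hD hG (v i).2 (v j).2
  | bot =>
    simp only [sat_bot, false_iff, not_exists, not_and]
    exact fun p _ hp => hp
  | imp φ ψ ih1 ih2 =>
    rw [sat_imp, ih1, ih2]
    constructor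
    · intro h1
      obtain ⟨q, hq, hq1⟩ := hG.gen _ (hD.d3 φ v) (by
        intro p hp
        by_cases hf : ff M Q φ v p
        · exact ⟨p, ZFSet.mem_sep.2 ⟨hp, Or.inl hf⟩, h.refl p hp⟩
        · obtain ⟨q, h2, h3⟩ := exists_ff_no h φ hp hf
          exact ⟨q, ZFSet.mem_sep.2 ⟨h.left_mem h2, Or.inr h3⟩, h2⟩)
      rcases (ZFSet.mem_sep.1 hq1).2 with hq1 | hq1
      · obtain ⟨r, hr, hr1⟩ := h1 ⟨q, hq, hq1⟩
        exact ⟨r, hr, fun s hs _ => ff_mono h ψ hr1 hs⟩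
      · exact ⟨q, hq, fun s hs h2 => absurd h2 (hq1 s hs)⟩
    · rintro ⟨p, hp, h1⟩ ⟨q, hq, h2⟩
      obtain ⟨r, hr, hr1, hr2⟩ := hG.dir p hp q hq
      exact ⟨r, hr, h1 r hr1 (ff_mono h φ h2 hr2)⟩
  | all φ ih =>
    rw [sat_all]
    constructor
    · intro h1
      obtain ⟨q, hq, hq1⟩ := hG.gen _ (hD.d4 φ v) (by
        intro p hp
        by_cases hf : ∀ x : M, ff M Q φ (cns x v) p
        · exact ⟨p, ZFSet.mem_sep.2 ⟨hp, Or.inl hf⟩, h.refl p hp⟩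
        · push Not at hf
          obtain ⟨x, hx⟩ := hf
          obtain ⟨q, h2, h3⟩ := exists_ff_no h φ hp hx
          exact ⟨q, ZFSet.mem_sep.2 ⟨h.left_mem h2, Or.inr ⟨x, h3⟩⟩, h2⟩)
      rcases (ZFSet.mem_sep.1 hq1).2 with hq1 | ⟨x, hx⟩
      · exact ⟨q, hq, hq1⟩
      · exfalso
        have h2 := h1 ⟨val G x.1, x.1, x.2, rfl⟩
        rw [← vals_cns, ih] at h2
        obtain ⟨r, hr, h3⟩ := h2
        obtain ⟨s, _, hs1, hs2⟩ := hG.dir q hq r hr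
        exact hx s hs1 (ff_mono h φ h3 hs2)
    · rintro ⟨p, hp, h1⟩ ⟨_, x, hx, rfl⟩
      have h2 := (ih (cns ⟨x, hx⟩ v)).2 ⟨p, hp, h1 ⟨x, hx⟩⟩
      rwa [vals_cns] at h2

/-- A condition forces a formula if and only if the formula is true in all generic extensions by
filters containing the condition. -/
theorem ff_iff (hM : ∀ x ∈ M, ∀ y ∈ x, y ∈ M) (hc : M.Countable) (h : IsPo M Q) (hD : FD M Q)
    (φ : Fml) (v : ℕ → M) {p : ZFSet.{0}} (hp : p ∈ Q.P) :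
    ff M Q φ v p ↔ ∀ G, Gen M Q G → p ∈ G → sat (Em (Ext M G)) φ (vals G v) := by
  constructor
  · intro h1 G hG hpG
    exact (truth hM h hD hG φ v).2 ⟨p, hpG, h1⟩
  · intro h1
    by_contra hn
    obtain ⟨q, h2, h3⟩ := exists_ff_no h φ hp hn
    obtain ⟨G, hG, hqG⟩ := gen_exists hc h (h.left_mem h2)
    have h4 := h1 G hG (hG.up q hqG p h2)
    rw [truth hM h hD hG] at h4
    obtain ⟨r, hr, h5⟩ := h4
    obtain ⟨s, _, hs1, hs2⟩ := hG.dir q hqG r hr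
    exact h3 s hs1 (ff_mono h φ h5 hs2)

end CPY
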