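import Pool.Agent.CPY.B.Main

/-! # Minimality of the generic extension

(forcing library CPY/B; no sorry in this file)

The values of names are computed by the same recursion inside every transitive model `W` which contains
`M` and the filter, so `Ext M G ⊆ W`. -/

universe v

namespace CPY

open STP ZU

section

variable {N : Type v} [ZM N]

/-- the value of the name `x` for the filter `g` in the model -/
noncomputable def vaM (g x : N) : N := WRec (fun x => ZU.dm x) (fun x f =>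
  img (sep (ZU.dm x) fun y => ∃ p, p ∈ g ∧ op y p ∈ x) (ap f)) x

theorem df_vaM_aux : DF fun v : ℕ → N =>
    img (sep (ZU.dm (v 0)) fun y => ∃ p, p ∈ v 2 ∧ op y p ∈ v 0) (ap (v 1)) := by
  refine df_img (F := fun y v => ap (v 1) y) ?_ (df_ap (df_var 2) (df_var 0))
  simp (maxDischargeDepth := 99)

@[simp] theorem df_vaM {g x : (ℕ → N) → N} (hg : DF g) (hx : DF x) :
    DF fun v => vaM (g v) (x v) := by
  refine df2 (F := vaM) ?_ hg hx
  unfold vaM
  refine df_wrec (pr := fun x _ => ZU.dm x) (G := fun x f v =>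
    img (sep (ZU.dm x) fun y => ∃ p, p ∈ v 0 ∧ op y p ∈ x) (ap f)) (df_dm (df_var 0)) ?_ (df_var 1)
  exact df_vaM_aux

theorem mem_vaM (hi : IndP fun x : N => ZU.dm x) {g x z : N} :
    z ∈ vaM g x ↔ ∃ y p, p ∈ g ∧ op y p ∈ x ∧ z = vaM g y := by
  have hG : DF fun v : ℕ → N =>
      img (sep (ZU.dm (v 0)) fun y => ∃ p, p ∈ g ∧ op y p ∈ v 0) (ap (v 1)) := by
    refine df_img (F := fun y v => ap (v 1) y) ?_ (df_ap (df_var 2) (df_var 0))
    simp (maxDischargeDepth := 99)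
  have h := wrec_eq (pr := fun x : N => ZU.dm x) (G := fun x f =>
    img (sep (ZU.dm x) fun y => ∃ p, p ∈ g ∧ op y p ∈ x) (ap f)) (df_dm (df_var 0)) hG hi x
  have hv : DF fun v : ℕ → N => vaM g (v 0) := df_vaM (df_const g) (df_var 0)
  have h' : vaM g x = img (sep (ZU.dm x) fun y => ∃ p, p ∈ g ∧ op y p ∈ x)
      (ap (lam (ZU.dm x) (vaM g))) := h
  rw [h', mem_img (df_ap_c _)]
  constructor
  · rintro ⟨y, hy, rfl⟩
    rw [mem_sep (by simp (maxDischargeDepth := 99))] at hy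
    obtain ⟨hy, p, hp, h1⟩ := hy
    exact ⟨y, p, hp, h1, ap_lam hv hy⟩
  · rintro ⟨y, p, hp, h1, rfl⟩
    have hy : y ∈ ZU.dm x := mem_dm.2 ⟨p, h1⟩
    refine ⟨y, ?_, (ap_lam hv hy).symm⟩
    rw [mem_sep (by simp (maxDischargeDepth := 99))]
    exact ⟨hy, p, hp, h1⟩

end

variable {W : Set ZFSet.{0}} [tW : TM W]

theorem vaM_val {G : Set ZFSet.{0}} {g : W} (hg : ∀ p, p ∈ g.1 ↔ p ∈ G) (x : W) :
    (vaM g x).1 = val G x.1 := by
  have hwf : WellFounded fun y x : W => y ∈ ZU.dm x :=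
    Subrelation.wf (r := InvImage dm (fun x : W => x.1)) (fun {a b} h => mdm_iff.1 h)
      (InvImage.wf _ dm_wf)
  induction x using hwf.induction with
  | _ x IH =>
    refine val_ext (fun z hz => ?_) fun z hz => ?_
    · obtain ⟨y, p, hp, h1, rfl⟩ := (mem_vaM indP_dm).1 hz
      rw [IH y (mem_dm.2 ⟨p, h1⟩)]
      exact mem_val.2 ⟨y.1, p.1, mop_mem.1 h1, (hg _).1 hp, rfl⟩
    · obtain ⟨y, p, h1, hp, rfl⟩ := mem_val.1 hz
      obtain ⟨y', p', rfl, rfl, h2⟩ := mpair_ex h1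
      exact ⟨vaM g y', IH y' (mem_dm.2 ⟨p', h2⟩),
        (mem_vaM indP_dm).2 ⟨y', p', (hg _).2 hp, h2, rfl⟩⟩

/-- **Minimality.** A transitive model of ZF which contains `M` and the filter contains `M[G]`. -/
theorem ext_min {M : Set ZFSet.{0}} {G : Set ZFSet.{0}} (hMW : M ⊆ W) {g : ZFSet.{0}} (hgW : g ∈ W)
    (hg : ∀ p, p ∈ g ↔ p ∈ G) : Ext M G ⊆ W := by
  rintro z ⟨x, hx, rfl⟩
  rw [← vaM_val (g := ⟨g, hgW⟩) hg ⟨x, hMW hx⟩]
  exact (vaM (⟨g, hgW⟩ : W) ⟨x, hMW hx⟩).2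

end CPY
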